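import Mathlib

/-!
# Basic notions: the properties DK and QF of an algebra, and kernel projections
-/

namespace Pool.Agent.RDO

open Matrix

section defs

variable (k R : Type) [Field k] [Ring R] [Algebra k R]

/-- If a product is a scalar, then one factor is zero or both factors are scalars. -/
def DK : Prop :=
  ∀ f g : R, (∃ c : k, f * g = algebraMap k R c) →
    f = 0 ∨ g = 0 ∨ ((∃ c : k, f = algebraMap k R c) ∧ ∃ c : k, g = algebraMap k R c)

/-- Formal smoothness: algebra maps lift along square-zero extensions. -/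
def QF : Prop :=
  ∀ (E E' : Type) [Ring E] [Ring E'] [Algebra k E] [Algebra k E'] (φ : E →ₐ[k] E'),
    Function.Surjective φ → (∀ x y, φ x = 0 → φ y = 0 → x * y = 0) →
    ∀ ψ : R →ₐ[k] E', ∃ χ : R →ₐ[k] E, φ.comp χ = ψ

end defs

section QF

variable {k R : Type} [Field k] [Ring R] [Algebra k R]

theorem QF_base : QF k k := by
  intro E E' _ _ _ _ φ _ _ ψ
  exact ⟨Algebra.ofId k E, Subsingleton.elim _ _⟩

theorem QF_op (h : QF k R) : QF k Rᵐᵒᵖ := by
  intro E E' _ _ _ _ φ hs hz ψ
  have hs' : Function.Surjective (AlgHom.op φ) := by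
    intro y
    obtain ⟨x, hx⟩ := hs y.unop
    exact ⟨MulOpposite.op x, by simp [hx]⟩
  have hz' : ∀ x y, (AlgHom.op φ) x = 0 → (AlgHom.op φ) y = 0 → x * y = 0 := by
    intro x y hx hy
    apply MulOpposite.unop_injective
    rw [MulOpposite.unop_mul]
    apply hz
    · simpa using hy
    · simpa using hx
  obtain ⟨χ, hχ⟩ := h _ _ (AlgHom.op φ) hs' hz' (AlgHom.opComm.symm ψ)
  refine ⟨AlgHom.opComm χ, ?_⟩
  ext x
  have := congrArg (fun f => (f x.unop)) hχ
  simp at this
  simpa using this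

/-- Over a formally smooth algebra, every linear map into a projective module has a kernel
projection. -/
theorem exists_kernel_proj (h : QF k R) {P1 P2 : Type} [AddCommGroup P1] [AddCommGroup P2]
    [Module k P1] [Module k P2] [Module R P1] [Module R P2] [IsScalarTower k R P1]
    [IsScalarTower k R P2] [Module.Projective R P2] (A : P1 →ₗ[R] P2) :
    ∃ f : P1 →ₗ[R] P1, (∀ x, A (f x) = 0) ∧ ∀ x, A x = 0 → f x = x := by
  classical
  -- k-linear version of A
  let Ak : P1 →ₗ[k] P2 := A.restrictScalars k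
  obtain ⟨U, hU⟩ := Submodule.exists_isCompl (LinearMap.range Ak)
  let p : (P1 × U) →ₗ[k] P2 := Ak.coprod U.subtype
  let i : P1 →ₗ[k] (P1 × U) := LinearMap.inl k P1 U
  have hpi : ∀ x, p (i x) = A x := by intro x; simp [p, i, Ak]
  have hp : ∀ (x : P1) (u : U), p (x, u) = A x + u := by intro x u; simp [p, Ak]
  have hU1 : ∀ (x : P1) (u : U), A x + (u : P2) ∈ LinearMap.range Ak → u = 0 := by
    intro x u hxu
    have h1 : (u : P2) ∈ LinearMap.range Ak := by
      have h2 : A x ∈ LinearMap.range Ak := ⟨x, rfl⟩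
      have := Submodule.sub_mem _ hxu h2
      simpa using this
    have h3 : (u : P2) ∈ LinearMap.range Ak ⊓ U := ⟨h1, u.2⟩
    rw [hU.inf_eq_bot] at h3
    simpa using h3
  have hsurj : Function.Surjective p := by
    intro z
    have : z ∈ LinearMap.range Ak ⊔ U := by rw [hU.sup_eq_top]; trivial
    obtain ⟨y, ⟨x, rfl⟩, u, hu, rfl⟩ := Submodule.mem_sup.1 this
    exact ⟨(x, ⟨u, hu⟩), by rw [hp]; rfl⟩
  -- the two algebras
  let E : Subalgebra k (Module.End k (P1 × U) × Module.End k P1 × Module.End k P2) :=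
    { carrier := {T | T.1 ∘ₗ i = i ∘ₗ T.2.1 ∧ p ∘ₗ T.1 = T.2.2 ∘ₗ p}
      mul_mem' := by
        rintro ⟨a1, a2, a3⟩ ⟨b1, b2, b3⟩ ⟨ha, ha'⟩ ⟨hb, hb'⟩
        simp only [Set.mem_ofPred_eq, Prod.mk_mul_mk, Module.End.mul_eq_comp] at *
        constructor
        · rw [LinearMap.comp_assoc, hb, ← LinearMap.comp_assoc, ha, LinearMap.comp_assoc]
        · rw [← LinearMap.comp_assoc, ha', LinearMap.comp_assoc, hb', LinearMap.comp_assoc]
      add_mem' := by
        rintro ⟨a1, a2, a3⟩ ⟨b1, b2, b3⟩ ⟨ha, ha'⟩ ⟨hb, hb'⟩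
        simp only [Set.mem_ofPred_eq, Prod.mk_add_mk] at *
        constructor
        · rw [LinearMap.add_comp, ha, hb, LinearMap.comp_add]
        · rw [LinearMap.comp_add, ha', hb', LinearMap.add_comp]
      algebraMap_mem' := by
        intro r
        simp only [Set.mem_ofPred_eq, Prod.algebraMap_apply]
        constructor
        · ext x <;> simp [i, Module.algebraMap_end_apply]
        · ext x <;> simp [p, Module.algebraMap_end_apply] }
  let E' : Subalgebra k (Module.End k P1 × Module.End k P2) :=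
    { carrier := {T | Ak ∘ₗ T.1 = T.2 ∘ₗ Ak}
      mul_mem' := by
        rintro ⟨a1, a2⟩ ⟨b1, b2⟩ ha hb
        simp only [Set.mem_ofPred_eq, Prod.mk_mul_mk, Module.End.mul_eq_comp] at *
        rw [← LinearMap.comp_assoc, ha, LinearMap.comp_assoc, hb, LinearMap.comp_assoc]
      add_mem' := by
        rintro ⟨a1, a2⟩ ⟨b1, b2⟩ ha hb
        simp only [Set.mem_ofPred_eq, Prod.mk_add_mk] at *
        rw [LinearMap.comp_add, ha, hb, LinearMap.add_comp]
      algebraMap_mem' := by
        intro r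
        simp only [Set.mem_ofPred_eq, Prod.algebraMap_apply]
        ext x; simp [Module.algebraMap_end_apply] }
  have hpi' : p ∘ₗ i = Ak := by ext x; simp [p, i]
  have hEE' : ∀ T : Module.End k (P1 × U) × Module.End k P1 × Module.End k P2, T ∈ E → T.2 ∈ E' := by
    rintro ⟨a1, a2, a3⟩ ⟨ha, ha'⟩
    simp only at ha ha'
    show Ak ∘ₗ a2 = a3 ∘ₗ Ak
    rw [← hpi', LinearMap.comp_assoc, ← ha, ← LinearMap.comp_assoc, ha', LinearMap.comp_assoc]
  let φ : E →ₐ[k] E' :=
    ((AlgHom.snd k (Module.End k (P1 × U)) (Module.End k P1 × Module.End k P2)).comp E.val).codRestrict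
      E' (fun T => hEE' T.1 T.2)
  have hφ : ∀ T : E, (φ T : Module.End k P1 × Module.End k P2) = (T : Module.End k (P1 × U) ×
      Module.End k P1 × Module.End k P2).2 := fun T => rfl
  have hφs : Function.Surjective φ := by
    rintro ⟨⟨a, b⟩, hab⟩
    have hab' : Ak ∘ₗ a = b ∘ₗ Ak := hab
    obtain ⟨s0, hs0⟩ := p.exists_rightInverse_of_surjective (LinearMap.range_eq_top.2 hsurj)
    let T : Module.End k (P1 × U) :=
      i ∘ₗ a ∘ₗ LinearMap.fst k P1 U + s0 ∘ₗ b ∘ₗ U.subtype ∘ₗ LinearMap.snd k P1 U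
    have hT1 : T ∘ₗ i = i ∘ₗ a := by
      ext x <;> simp [T, i]
    have hT2 : p ∘ₗ T = b ∘ₗ p := by
      have h1 : p ∘ₗ T = (p ∘ₗ i) ∘ₗ a ∘ₗ LinearMap.fst k P1 U +
          (p ∘ₗ s0) ∘ₗ b ∘ₗ U.subtype ∘ₗ LinearMap.snd k P1 U := by
        rw [LinearMap.comp_add]; rfl
      rw [h1, hs0, hpi', LinearMap.id_comp, ← LinearMap.comp_assoc, hab', LinearMap.comp_assoc]
      ext x <;> simp [p]
    refine ⟨⟨(T, a, b), ⟨hT1, hT2⟩⟩, ?_⟩
    apply Subtype.ext
    rfl
  have hφz : ∀ x y, φ x = 0 → φ y = 0 → x * y = 0 := by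
    rintro ⟨⟨x1, x2⟩, hx, hx'⟩ ⟨⟨y1, y2⟩, hy, hy'⟩ hx0 hy0
    have hx2 : x2 = 0 := congrArg Subtype.val hx0
    have hy2 : y2 = 0 := congrArg Subtype.val hy0
    subst hx2 hy2
    have hx'' : x1 ∘ₗ i = 0 := by simpa using hx
    have hy'' : p ∘ₗ y1 = 0 := by simpa using hy'
    have h0 : x1 * y1 = 0 := by
      apply LinearMap.ext
      intro z
      have h1 : p (y1 z) = 0 := LinearMap.congr_fun hy'' z
      rcases hyz : y1 z with ⟨x, u⟩
      rw [hyz, hp] at h1
      have hu : u = 0 := hU1 x u (by rw [h1]; exact Submodule.zero_mem _)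
      have h2 : x1 (i x) = 0 := LinearMap.congr_fun hx'' x
      rw [Module.End.mul_apply, hyz, hu]
      exact h2
    apply Subtype.ext
    show (x1 * y1, (0 : Module.End k P1 × Module.End k P2) * 0) = 0
    rw [h0, mul_zero]; rfl
  let ψ : R →ₐ[k] E' := ((Algebra.lsmul k k P1 : R →ₐ[k] _).prod (Algebra.lsmul k k P2)).codRestrict E' (by
    intro r
    show Ak ∘ₗ _ = _ ∘ₗ Ak
    ext x
    simp [Ak])
  obtain ⟨χ, hχ⟩ := h E E' φ hφs hφz ψ
  have hχ1 : ∀ r, ((χ r : Module.End k (P1 × U) × Module.End k P1 × Module.End k P2)).2.1 = Algebra.lsmul k k P1 r := by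
    intro r
    have := congrArg (fun f => ((f r : E') : Module.End k P1 × Module.End k P2).1) hχ
    exact this
  have hχ2 : ∀ r, ((χ r : Module.End k (P1 × U) × Module.End k P1 × Module.End k P2)).2.2 = Algebra.lsmul k k P2 r := by
    intro r
    have := congrArg (fun f => ((f r : E') : Module.End k P1 × Module.End k P2).2) hχ
    exact this
  let χ1 : R →+* Module.End k (P1 × U) :=
    ((AlgHom.fst k (Module.End k (P1 × U)) (Module.End k P1 × Module.End k P2)).comp (E.val.comp χ)).toRingHom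
  let _ : Module R (P1 × U) := Module.compHom (P1 × U) χ1
  have hsmul : ∀ (r : R) (y : P1 × U), r • y = χ1 r y := fun r y => rfl
  have hχi : ∀ r x, χ1 r (i x) = i (r • x) := by
    intro r x
    have h1 := (χ r).2.1
    rw [hχ1] at h1
    exact LinearMap.congr_fun h1 x
  have hχp : ∀ r y, p (χ1 r y) = r • p y := by
    intro r y
    have h1 := (χ r).2.2
    rw [hχ2] at h1
    exact LinearMap.congr_fun h1 y
  let pR : (P1 × U) →ₗ[R] P2 :=
    { toFun := p
      map_add' := p.map_add
      map_smul' := fun r y => hχp r y }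
  obtain ⟨s, hs⟩ := Module.projective_lifting_property pR LinearMap.id hsurj
  have hs' : ∀ z, p (s z) = z := fun z => LinearMap.congr_fun hs z
  have key : ∀ x, s (A x) = i (s (A x)).1 := by
    intro x
    have h1 := hs' (A x)
    rcases hz : s (A x) with ⟨y, u⟩
    rw [hz, hp] at h1
    have hu : u = 0 := hU1 y u (by rw [h1]; exact ⟨x, rfl⟩)
    rw [hu]; rfl
  have hA : ∀ x, A (s (A x)).1 = A x := by
    intro x
    rw [← hpi, ← key, hs']
  refine ⟨{ toFun := fun x => x - (s (A x)).1
            map_add' := ?_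
            map_smul' := ?_ }, ?_, ?_⟩
  · intro x y
    simp only [map_add, Prod.fst_add]
    abel
  · intro r x
    have h1 : (s (A (r • x))).1 = r • (s (A x)).1 := by
      have h2 : s (A (r • x)) = i (r • (s (A x)).1) := by
        rw [map_smul, map_smul, hsmul, key x, hχi]; rfl
      rw [h2]; rfl
    simp only [h1, RingHom.id_apply, smul_sub]
  · intro x
    show A (x - (s (A x)).1) = 0
    rw [map_sub, hA, sub_self]
  · intro x hx
    show x - (s (A x)).1 = x
    rw [hx, map_zero]; simp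

theorem exists_left_kernel {n m : Type} [Fintype n] [Fintype m] [DecidableEq n] (h : QF k R)
    (α : Matrix n m R) :
    ∃ e : Matrix n n R, e * α = 0 ∧ ∀ y : n → R, vecMul y α = 0 → vecMul y e = y := by
  obtain ⟨f, hf1, hf2⟩ := exists_kernel_proj (k := k) h (Matrix.vecMulLinear α)
  refine ⟨LinearMap.toMatrixRight' f, ?_, ?_⟩
  · ext i j
    have h1 := congrFun (hf1 (Pi.single i 1)) j
    simp only [Matrix.vecMulLinear_apply, Pi.zero_apply] at h1
    rw [Matrix.mul_apply, Matrix.zero_apply, ← h1]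
    rfl
  · intro y hy
    have h1 := hf2 y hy
    have h2 : f = Matrix.vecMulLinear (LinearMap.toMatrixRight' f) := by
      exact ((LinearMap.toMatrixRight' (R := R) (m := n) (n := n)).symm_apply_apply f).symm
    rw [h2] at h1
    simpa using h1

theorem exists_right_kernel {n m : Type} [Fintype n] [Fintype m] [DecidableEq m] (h : QF k R)
    (α : Matrix n m R) :
    ∃ f : Matrix m m R, α * f = 0 ∧ ∀ x : m → R, α *ᵥ x = 0 → f *ᵥ x = x := by
  obtain ⟨e, he1, he2⟩ := exists_left_kernel (k := k) (QF_op h) (αᵀ.map MulOpposite.op)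
  refine ⟨(e.map MulOpposite.unop)ᵀ, ?_, ?_⟩
  · ext i j
    have h1 := congrFun (congrFun he1 j) i
    simp only [Matrix.mul_apply, Matrix.map_apply, Matrix.transpose_apply, Matrix.zero_apply] at h1 ⊢
    have h2 := congrArg MulOpposite.unop h1
    simpa using h2
  · intro x hx
    have h1 := he2 (fun i => MulOpposite.op (x i)) (by
      ext i
      have h3 := congrFun hx i
      simp only [Matrix.mulVec, dotProduct, Pi.zero_apply] at h3
      simp only [Matrix.vecMul, dotProduct, Matrix.map_apply, Matrix.transpose_apply, Pi.zero_apply]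
      apply MulOpposite.unop_injective
      simpa using h3)
    ext i
    have h2 := congrArg MulOpposite.unop (congrFun h1 i)
    simp only [Matrix.vecMul, dotProduct] at h2
    simp only [Matrix.mulVec, dotProduct, Matrix.map_apply, Matrix.transpose_apply]
    simpa using h2

end QF

end Pool.Agent.RDO
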