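import Pool.Agent.RDO.Ext

/-!
# The extension ring is formally smooth
-/

namespace Pool.Agent.RDO

open Matrix

/-- correcting an approximate solution of AB = U, BC = V -/
theorem correct {E : Type} [Ring E] {n p q m : Type} [Fintype n] [Fintype p] [Fintype q]
    [Fintype m] [DecidableEq n] [DecidableEq p] [DecidableEq q] [DecidableEq m]
    (J : E → Prop) (hJ0 : J 0) (hJadd : ∀ a b, J a → J b → J (a + b)) (hJneg : ∀ a, J a → J (-a))
    (hJl : ∀ a b, J b → J (a * b)) (hJr : ∀ a b, J a → J (a * b))
    (hJJ : ∀ a b, J a → J b → a * b = 0)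
    (A : Matrix n p E) (B0 : Matrix p q E) (C : Matrix q m E) (U : Matrix n q E) (V : Matrix p m E)
    (U' : Matrix q n E) (V' : Matrix m p E) (hU : U * U' = 1) (hV : V' * V = 1)
    (hAV : A * V = U * C) (h1 : ∀ i j, J ((A * B0 - U) i j)) (h2 : ∀ i j, J ((B0 * C - V) i j)) :
    ∃ B : Matrix p q E, A * B = U ∧ B * C = V ∧ ∀ i j, J ((B - B0) i j) := by
  obtain ⟨e1, he1⟩ : ∃ e1, e1 = A * B0 - U := ⟨_, rfl⟩
  obtain ⟨e2, he2⟩ : ∃ e2, e2 = B0 * C - V := ⟨_, rfl⟩
  rw [← he1] at h1
  rw [← he2] at h2
  have hsum : ∀ {ι : Type} (s : Finset ι) (f : ι → E), (∀ i ∈ s, J (f i)) → J (∑ i ∈ s, f i) := by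
    intro ι s f hf
    classical
    induction s using Finset.induction_on with
    | empty => simpa using hJ0
    | insert a s ha ih =>
      rw [Finset.sum_insert ha]
      exact hJadd _ _ (hf a (by simp)) (ih (fun i hi => hf i (by simp [hi])))
  have hml : ∀ {a b c : Type} [Fintype b] (X : Matrix a b E) (Y : Matrix b c E),
      (∀ i j, J (Y i j)) → ∀ i j, J ((X * Y) i j) := by
    intro a b c _ X Y hY i j
    rw [Matrix.mul_apply]
    exact hsum _ _ (fun k _ => hJl _ _ (hY k j))
  have hmr : ∀ {a b c : Type} [Fintype b] (X : Matrix a b E) (Y : Matrix b c E),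
      (∀ i j, J (X i j)) → ∀ i j, J ((X * Y) i j) := by
    intro a b c _ X Y hX i j
    rw [Matrix.mul_apply]
    exact hsum _ _ (fun k _ => hJr _ _ (hX i k))
  have hzz : ∀ {a b c : Type} [Fintype b] (X : Matrix a b E) (Y : Matrix b c E),
      (∀ i j, J (X i j)) → (∀ i j, J (Y i j)) → X * Y = 0 := by
    intro a b c _ X Y hX hY
    ext i j
    rw [Matrix.mul_apply, Matrix.zero_apply]
    exact Finset.sum_eq_zero (fun k _ => hJJ _ _ (hX i k) (hY k j))
  have hAB : A * B0 = U + e1 := by rw [he1]; abel
  have hBC : B0 * C = V + e2 := by rw [he2]; abel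
  have heC : e1 * C = A * e2 := by
    rw [he1, he2, Matrix.sub_mul, Matrix.mul_sub, Matrix.mul_assoc, hAV]
  refine ⟨B0 - B0 * (U' * e1) - (1 - B0 * (U' * A)) * (e2 * (V' * B0)), ?_, ?_, ?_⟩
  · have e3 : A * (B0 * (U' * e1)) = e1 := by
      rw [← Matrix.mul_assoc, hAB, Matrix.add_mul, ← Matrix.mul_assoc U, hU, Matrix.one_mul,
        hzz e1 (U' * e1) h1 (hml _ _ h1), add_zero]
    have e4 : A * ((1 - B0 * (U' * A)) * (e2 * (V' * B0))) = 0 := by
      have : A * (1 - B0 * (U' * A)) = - (e1 * (U' * A)) := by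
        rw [Matrix.mul_sub, Matrix.mul_one, ← Matrix.mul_assoc A, hAB, Matrix.add_mul,
          ← Matrix.mul_assoc U, hU, Matrix.one_mul]
        abel
      rw [← Matrix.mul_assoc, this, Matrix.neg_mul, Matrix.mul_assoc e1,
        hzz e1 _ h1 (hml _ _ (hmr _ _ h2)), neg_zero]
    rw [Matrix.mul_sub, Matrix.mul_sub, e3, e4, hAB]
    abel
  · have e5 : e2 * (V' * B0) * C = e2 := by
      rw [Matrix.mul_assoc, Matrix.mul_assoc V', hBC, Matrix.mul_add, hV, Matrix.mul_add,
        Matrix.mul_one, hzz e2 _ h2 (hml _ _ h2), add_zero]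
    rw [Matrix.sub_mul, Matrix.sub_mul, Matrix.mul_assoc (1 - _), e5, Matrix.mul_assoc B0,
      Matrix.mul_assoc U', heC, hBC, Matrix.sub_mul, Matrix.one_mul, Matrix.mul_assoc B0,
      Matrix.mul_assoc U']
    abel
  · intro i j
    have : B0 - B0 * (U' * e1) - (1 - B0 * (U' * A)) * (e2 * (V' * B0)) - B0 =
        -(B0 * (U' * e1)) + -((1 - B0 * (U' * A)) * (e2 * (V' * B0))) := by abel
    rw [this]
    exact hJadd _ _ (hJneg _ (hml _ _ (hml _ _ h1) i j)) (hJneg _ (hml _ _ (hmr _ _ h2) i j))

variable {k R : Type} [Field k] [Ring R] [Algebra k R]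

theorem QF_ext (h : QF k R) : QF k (Ext k R) := by
  intro E E' _ _ _ _ φ hs hz ψ
  obtain ⟨f, hf⟩ := h E E' φ hs hz (ψ.comp (ιR k R))
  have hf' : ∀ r, φ (f r) = ψ (ιR k R r) := fun r => AlgHom.congr_fun hf r
  choose g0 hg0 using fun x => hs (ψ (ιX k R x))
  have key : ∀ l : RegMat R, ∃ B : Matrix (Option (Fin l.m)) (Option (Fin l.n)) E,
      (∀ (i : Fin l.n) (j : Option (Fin l.n)),
        ∑ p, f (l.α i p) * B (some p) j + g0 (.t l i) * B none j = if j = some i then 1 else 0) ∧
      (∀ (i : Option (Fin l.m)) (j : Fin l.m),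
        ∑ p, B i (some p) * f (l.α p j) + B i none * g0 (.c l j) = if i = some j then 1 else 0) ∧
      ∀ i j, φ (B i j) = ψ (ιX k R (.b l i j)) := by
    intro l
    let A : Matrix (Fin l.n) (Option (Fin l.m)) E :=
      fun i o => o.elim (g0 (.t l i)) (fun p => f (l.α i p))
    let C : Matrix (Option (Fin l.n)) (Fin l.m) E :=
      fun o j => o.elim (g0 (.c l j)) (fun p => f (l.α p j))
    let B0 : Matrix (Option (Fin l.m)) (Option (Fin l.n)) E := fun i j => g0 (.b l i j)
    let U : Matrix (Fin l.n) (Option (Fin l.n)) E := fun i j => if j = some i then 1 else 0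
    let V : Matrix (Option (Fin l.m)) (Fin l.m) E := fun i j => if i = some j then 1 else 0
    let U' : Matrix (Option (Fin l.n)) (Fin l.n) E := fun j i => if j = some i then 1 else 0
    let V' : Matrix (Fin l.m) (Option (Fin l.m)) E := fun j i => if i = some j then 1 else 0
    have hU : U * U' = 1 := by
      ext i j
      simp only [U, U', Matrix.mul_apply, Fintype.sum_option, Matrix.one_apply]
      simp [eq_comm]
    have hV : V' * V = 1 := by
      ext i j
      simp only [V, V', Matrix.mul_apply, Fintype.sum_option, Matrix.one_apply]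
      simp [eq_comm]
    have hAV : A * V = U * C := by
      ext i j
      simp only [A, V, U, C, Matrix.mul_apply, Fintype.sum_option]
      simp
    have hAB : ∀ i j, (A * B0) i j = ∑ p, f (l.α i p) * g0 (.b l (some p) j) +
        g0 (.t l i) * g0 (.b l none j) := by
      intro i j
      simp only [A, B0, Matrix.mul_apply, Fintype.sum_option, Option.elim]
      rw [add_comm]
    have hBC : ∀ i j, (B0 * C) i j = ∑ p, g0 (.b l i (some p)) * f (l.α p j) +
        g0 (.b l i none) * g0 (.c l j) := by
      intro i j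
      simp only [C, B0, Matrix.mul_apply, Fintype.sum_option, Option.elim]
      rw [add_comm]
    obtain ⟨B, hB1, hB2, hB3⟩ := correct (fun a => φ a = 0) (map_zero φ)
      (fun a b ha hb => by rw [map_add, ha, hb, add_zero])
      (fun a ha => by rw [map_neg, ha, neg_zero])
      (fun a b hb => by rw [map_mul, hb, mul_zero])
      (fun a b ha => by rw [map_mul, ha, zero_mul]) hz A B0 C U V U' V' hU hV hAV
      (by
        intro i j
        have := congrArg ψ (rel1 k l i j)
        rw [Matrix.sub_apply, hAB, map_sub]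
        simp only [map_add, map_sum, map_mul, hf', hg0] at this ⊢
        rw [this]
        simp only [U]
        split_ifs <;> simp)
      (by
        intro i j
        have := congrArg ψ (rel2 k l i j)
        rw [Matrix.sub_apply, hBC, map_sub]
        simp only [map_add, map_sum, map_mul, hf', hg0] at this ⊢
        rw [this]
        simp only [V]
        split_ifs <;> simp)
    refine ⟨B, ?_, ?_, ?_⟩
    · intro i j
      have := congrFun (congrFun hB1 i) j
      rw [Matrix.mul_apply, Fintype.sum_option] at this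
      rw [← show U i j = if j = some i then 1 else 0 from rfl, ← this, add_comm]
      rfl
    · intro i j
      have := congrFun (congrFun hB2 i) j
      rw [Matrix.mul_apply, Fintype.sum_option] at this
      rw [← show V i j = if i = some j then 1 else 0 from rfl, ← this, add_comm]
      rfl
    · intro i j
      have := hB3 i j
      rw [Matrix.sub_apply, map_sub, sub_eq_zero] at this
      rw [this, hg0]
  choose B hB1 hB2 hB3 using key
  let g : Var R → E := fun x => match x with
    | .t l i => g0 (.t l i)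
    | .c l j => g0 (.c l j)
    | .b l i j => B l i j
  refine ⟨liftE f g (fun l i j => hB1 l i j) (fun l i j => hB2 l i j), ?_⟩
  apply Ext.algHom_ext
  · intro r
    simp [hf']
  · intro x
    cases x with
    | t l i => simp [g, hg0]
    | c l j => simp [g, hg0]
    | b l i j => simp [g, hB3]

end Pool.Agent.RDO
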