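import Pool.Agent.RDO.Flat
import Pool.Agent.RDO.QFExt

/-!
# The chain of extensions and its union
-/

namespace Pool.Agent.RDO

open Matrix

/-- a stage of the construction -/
structure Stg (k : Type) [Field k] where
  /-- carrier -/
  R : Type
  [ring : Ring R]
  [alg : Algebra k R]
  [nt : Nontrivial R]
  dk : DK k R
  qf : QF k R

attribute [instance] Stg.ring Stg.alg Stg.nt

section

variable (k : Type) [Field k]

theorem DK_base : DK k k := by
  intro f g _
  right; right
  exact ⟨⟨f, rfl⟩, ⟨g, rfl⟩⟩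

variable {k}

/-- next stage -/
noncomputable def Stg.succ (s : Stg k) : Stg k where
  R := Ext k s.R
  dk := DK_ext s.dk
  qf := QF_ext s.qf

variable (k)

/-- the stages -/
noncomputable def stg : ℕ → Stg k
  | 0 => { R := k, dk := DK_base k, qf := QF_base }
  | n + 1 => (stg n).succ

/-- carriers of the stages -/
abbrev St (n : ℕ) : Type := (stg k n).R

/-- transition to the next stage -/
noncomputable def stp (n : ℕ) : St k n →+* St k (n + 1) := (ιR k (St k n)).toRingHom

/-- transitions -/
noncomputable def tr (i j : ℕ) (h : i ≤ j) : St k i →+* St k j :=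
  Nat.leRecOn h (fun {n} (φ : St k i →+* St k n) => (stp k n).comp φ) (RingHom.id _)

theorem tr_self (i : ℕ) : tr k i i le_rfl = RingHom.id _ := by
  unfold tr
  rw [Nat.leRecOn_self]

theorem tr_succ (i j : ℕ) (h : i ≤ j) : tr k i (j + 1) (Nat.le_succ_of_le h) = (stp k j).comp (tr k i j h) := by
  unfold tr
  rw [Nat.leRecOn_succ h]

theorem tr_trans (i j l : ℕ) (h : i ≤ j) (h' : j ≤ l) :
    tr k i l (h.trans h') = (tr k j l h').comp (tr k i j h) := by
  induction l, h' using Nat.le_induction with
  | base => rw [tr_self]; rfl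
  | succ l hl ih =>
    rw [tr_succ k j l hl, tr_succ k i l (h.trans hl), ih]; rfl

theorem tr_inj (i j : ℕ) (h : i ≤ j) : Function.Injective (tr k i j h) := by
  induction j, h using Nat.le_induction with
  | base => rw [tr_self]; exact fun _ _ h => h
  | succ l hl ih =>
    rw [tr_succ k i l hl]
    exact (ιR_injective (k := k) (R := St k l)).comp ih

instance trSys : DirectedSystem (St k) (fun i j h => tr k i j h) where
  map_self i x := by rw [tr_self]; rfl
  map_map _ _ _ h h' x := by
    rw [tr_trans k _ _ _ h h']; rfl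

/-- the union -/
abbrev Lim : Type := DirectLimit (St k) (tr k)

noncomputable instance : Ring (Lim k) := inferInstance

noncomputable def ofS (i : ℕ) : St k i →+* Lim k where
  toFun x := ⟦⟨i, x⟩⟧
  map_one' := (DirectLimit.one_def i).symm
  map_mul' x y := (DirectLimit.mul_def i x y).symm
  map_zero' := (DirectLimit.zero_def i).symm
  map_add' x y := (DirectLimit.add_def i x y).symm

theorem ofS_inj (i : ℕ) : Function.Injective (ofS k i) :=
  DirectLimit.mk_injective _ (fun i j h => tr_inj k i j h) i

theorem ofS_tr (i j : ℕ) (h : i ≤ j) (x : St k i) : ofS k j (tr k i j h x) = ofS k i x :=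
  DirectLimit.mk_apply (f := fun i j h => tr k i j h) i j x h

theorem ofS_stp (i : ℕ) (x : St k i) : ofS k (i + 1) (stp k i x) = ofS k i x := by
  rw [← ofS_tr k i (i + 1) (Nat.le_succ i), tr_succ k i i le_rfl, tr_self]; rfl

theorem exists_ofS (x : Lim k) : ∃ i, ∀ j, i ≤ j → ∃ y : St k j, ofS k j y = x := by
  obtain ⟨i, y, rfl⟩ := DirectLimit.exists_eq_mk _ x
  exact ⟨i, fun j hj => ⟨tr k i j hj y, ofS_tr k i j hj y⟩⟩

theorem exists_ofS_fin {ι : Type} [Finite ι] (x : ι → Lim k) :
    ∃ i, ∀ j, i ≤ j → ∃ y : ι → St k j, ∀ a, ofS k j (y a) = x a := by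
  have := Fintype.ofFinite ι
  choose i hi using fun a => exists_ofS k (x a)
  refine ⟨Finset.univ.sup i, fun j hj => ?_⟩
  choose y hy using fun a => hi a j ((Finset.le_sup (Finset.mem_univ a)).trans hj)
  exact ⟨y, hy⟩

instance : Nontrivial (Lim k) := inferInstance

instance : NoZeroDivisors (Lim k) where
  eq_zero_or_eq_zero_of_mul_eq_zero := by
    intro a b hab
    obtain ⟨i, x, y, rfl, rfl⟩ := DirectLimit.exists_eq_mk₂ _ a b
    have h1 : ofS k i x * ofS k i y = 0 := hab
    rw [← map_mul] at h1
    have h2 : x * y = 0 := ofS_inj k i (h1.trans (map_zero _).symm)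
    rcases (stg k i).dk.eq_zero h2 with rfl | rfl
    · left; exact map_zero (ofS k i)
    · right; exact map_zero (ofS k i)

instance : IsDomain (Lim k) := NoZeroDivisors.to_isDomain _

theorem RInd_tr {i j : ℕ} (h : i ≤ j) {a b : St k i} (hab : RInd a b) :
    RInd (tr k i j h a) (tr k i j h b) := by
  induction j, h using Nat.le_induction with
  | base => rw [tr_self]; exact hab
  | succ l hl ih =>
    rw [tr_succ k i l hl]
    exact RInd_ιR (k := k) ih

theorem RInd_ofS {i : ℕ} {a b : St k i} (hab : RInd a b) : RInd (ofS k i a) (ofS k i b) := by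
  intro x y hxy
  obtain ⟨i', hi'⟩ := exists_ofS_fin k ![x, y]
  obtain ⟨z, hz⟩ := hi' (max i i') (le_max_right _ _)
  have h0 : ofS k _ (z 0) = x := hz 0
  have h1 : ofS k _ (z 1) = y := hz 1
  have h2 := RInd_tr k (le_max_left i i') hab (z 0) (z 1) (by
    apply ofS_inj
    rw [map_add, map_mul, map_mul, ofS_tr, ofS_tr, h0, h1, hxy, map_zero])
  rw [← h0, ← h1, h2.1, h2.2, map_zero]
  exact ⟨rfl, rfl⟩

theorem exists_RInd : ∃ a b : Lim k, RInd a b :=
  ⟨ofS k 1 (ιX k (St k 0) (gv (St k 0) 2 0 0)), ofS k 1 (ιX k (St k 0) (gv (St k 0) 2 0 1)),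
    RInd_ofS k (i := 1) (RInd_gv (k := k) (R := St k 0))⟩

/-- the map from an extension to the limit -/
noncomputable def ofE (i : ℕ) : Ext k (St k i) →+* Lim k := ofS k (i + 1)

theorem ofE_ιR (i : ℕ) (x : St k i) : ofE k i (ιR k (St k i) x) = ofS k i x := ofS_stp k i x

/-- in the limit, every matrix, regular at some stage, is a retract of an element -/
theorem lim_reg {i : ℕ} {N : ℕ} (A : Matrix (Fin N) (Fin N) (St k i))
    (h1 : ∀ x : Fin N → St k i, A *ᵥ x = 0 → x = 0)
    (h2 : ∀ x : Fin N → St k i, x ᵥ* A = 0 → x = 0) :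
    ∃ (t c : Fin N → Lim k) (b : Option (Fin N) → Option (Fin N) → Lim k),
      (∀ (i' : Fin N) (j : Option (Fin N)),
        ∑ p, ofS k i (A i' p) * b (some p) j + t i' * b none j = if j = some i' then 1 else 0) ∧
      (∀ (i' : Option (Fin N)) (j : Fin N),
        ∑ p, b i' (some p) * ofS k i (A p j) + b i' none * c j = if i' = some j then 1 else 0) := by
  let l : RegMat (St k i) := ⟨N, N, A, h1, h2⟩
  refine ⟨fun i' => ofE k i (ιX k (St k i) (.t l i')),
    fun j => ofE k i (ιX k (St k i) (.c l j)),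
    fun i' j => ofE k i (ιX k (St k i) (.b l i' j)), ?_, ?_⟩
  · intro i' j
    have := congrArg (ofE k i) (rel1 k l i' j)
    rw [map_add, map_sum, map_mul, apply_ite (ofE k i), map_one, map_zero] at this
    rw [← this]
    congr 1
    refine Finset.sum_congr rfl fun p _ => ?_
    rw [map_mul, ofE_ιR]
  · intro i' j
    have := congrArg (ofE k i) (rel2 k l i' j)
    rw [map_add, map_sum, map_mul, apply_ite (ofE k i), map_one, map_zero] at this
    rw [← this]
    congr 1
    refine Finset.sum_congr rfl fun p _ => ?_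
    rw [map_mul, ofE_ιR]

end

end Pool.Agent.RDO
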