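import Pool.Agent.RDO.Top

/-!
# The extension ring inherits DK
-/

namespace Pool.Agent.RDO

open Matrix
open Finsupp (single lsingle)

section

variable {k R : Type} [Field k] [Ring R] [Algebra k R]

theorem DK.eq_zero (h : DK k R) {f g : R} (hfg : f * g = 0) : f = 0 ∨ g = 0 := by
  rcases h f g ⟨0, by rw [hfg, map_zero]⟩ with h1 | h1 | ⟨⟨a, ha⟩, ⟨b, hb⟩⟩
  · exact Or.inl h1
  · exact Or.inr h1
  · rw [ha, hb, ← map_mul] at hfg
    by_cases hR : Nontrivial R
    · have hab : a * b = 0 := (FaithfulSMul.algebraMap_injective k R) (by rw [hfg, map_zero])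
      rcases mul_eq_zero.1 hab with h | h
      · left; rw [ha, h, map_zero]
      · right; rw [hb, h, map_zero]
    · rw [not_nontrivial_iff_subsingleton] at hR
      left; exact Subsingleton.elim _ _

theorem exists_basis_one [Nontrivial R] :
    ∃ (B : Type) (Bs : Module.Basis B k R) (b0 : B), Bs b0 = 1 := by
  have h : LinearIndepOn k id ({1} : Set R) := by
    rw [linearIndepOn_singleton_iff]
    exact one_ne_zero
  exact ⟨_, Module.Basis.extend h, ⟨1, h.subset_extend _ rfl⟩, by simp [Module.Basis.extend_apply_self]⟩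

end

section

variable {k R B : Type} [Field k] [Ring R] [Algebra k R] (Bs : Module.Basis B k R) (b0 : B)
variable (hb : Bs b0 = 1)
include hb

theorem nf_mul_mem_Lt {F G : Ext k R} {P Q : ℕ} (hF : nf Bs b0 hb F ∈ Lt (P + 1))
    (hG : nf Bs b0 hb G ∈ Lt (Q + 1)) : nf Bs b0 hb (F * G) ∈ Lt (P + Q + 1) := by
  rw [nf_mul, rho_expand]
  refine Submodule.sum_mem _ fun w hw => ?_
  apply Submodule.smul_mem
  have hw' : w.length < P + 1 := by
    by_contra h
    exact (Finsupp.mem_support_iff.1 hw) (mem_Lt.1 hF w (by omega))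
  exact Lt_mono (by omega) (rho_wd_mem_Lt Bs b0 hb w hG)

theorem nf_ιX_mul_mem_Lt {G : Ext k R} {Q : ℕ} (x : Var R) (hG : nf Bs b0 hb G ∈ Lt (Q + 1)) :
    nf Bs b0 hb (ιX k R x * G) ∈ Lt (Q + 2) := by
  rw [nf_ιX_mul]; exact opX_mem_Lt Bs b0 x hG

theorem nf_mul_ιX_mem_Lt {F : Ext k R} {P : ℕ} (x : Var R) (hF : nf Bs b0 hb F ∈ Lt (P + 1)) :
    nf Bs b0 hb (F * ιX k R x) ∈ Lt (P + 2) := by
  have : nf Bs b0 hb (ιX k R x) ∈ Lt (1 + 1) := by
    rw [← mul_one (ιX k R x)]
    apply nf_ιX_mul_mem_Lt Bs b0 hb x (Q := 0)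
    rw [← map_one (ιR k R), nf_ιR]
    exact single_mem_Lt (by simp) _
  exact nf_mul_mem_Lt Bs b0 hb hF this

theorem nf_one : nf Bs b0 hb (1 : Ext k R) = single [] 1 := by
  rw [← map_one (ιR k R), nf_ιR]

/-- evaluation of a product at words with a middle letter which is different from all the obvious
ones -/
theorem second {I J : Type} [Fintype I] [Fintype J] (F : I → Ext k R) (x : I → Var R)
    (f' : Ext k R) (G : J → Ext k R) (y : J → Var R) (g' : Ext k R) {P Q : ℕ}
    (hF : ∀ i, nf Bs b0 hb (F i) ∈ Lt (P + 1)) (hf' : nf Bs b0 hb f' ∈ Lt (P + 1))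
    (hG : ∀ j, nf Bs b0 hb (G j) ∈ Lt (Q + 1)) (hg' : nf Bs b0 hb g' ∈ Lt (Q + 1))
    {l1 l2 : Wd R B} {y0 : Var R} {b : B} (h1 : l1.length = P) (h2 : l2.length = Q)
    (hn : Nrm b0 (l1 ++ (y0, b) :: l2)) (hx : ∀ i, y0 ≠ x i) (hy : ∀ j, y0 ≠ y j) :
    nf Bs b0 hb ((∑ i, F i * ιX k R (x i) + f') * (∑ j, ιX k R (y j) * G j + g'))
      (l1 ++ (y0, b) :: l2) =
    nf Bs b0 hb (∑ i, ∑ j, F i * (ιX k R (x i) * ιX k R (y j)) * G j) (l1 ++ (y0, b) :: l2) := by
  classical
  subst h1 h2
  have e : (∑ i, F i * ιX k R (x i) + f') * (∑ j, ιX k R (y j) * G j + g') =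
      ∑ i, ∑ j, F i * (ιX k R (x i) * ιX k R (y j)) * G j + ∑ i, F i * ιX k R (x i) * g' +
      ∑ j, f' * ιX k R (y j) * G j + f' * g' := by
    rw [add_mul, mul_add, mul_add, Finset.sum_mul_sum, Finset.sum_mul, Finset.mul_sum]
    simp only [mul_assoc, add_assoc]
  rw [e, map_add, map_add, map_add, Finsupp.add_apply, Finsupp.add_apply, Finsupp.add_apply]
  have z1 : nf Bs b0 hb (∑ i, F i * ιX k R (x i) * g') (l1 ++ (y0, b) :: l2) = 0 := by
    rw [map_sum, Finsupp.finsetSum_apply]
    refine Finset.sum_eq_zero fun i _ => ?_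
    rw [triple Bs b0 hb (F i) g' (x i) y0 (hF i) hg' hn, if_neg (hx i)]
  have z2 : nf Bs b0 hb (∑ j, f' * ιX k R (y j) * G j) (l1 ++ (y0, b) :: l2) = 0 := by
    rw [map_sum, Finsupp.finsetSum_apply]
    refine Finset.sum_eq_zero fun j _ => ?_
    rw [triple Bs b0 hb f' (G j) (y j) y0 hf' (hG j) hn, if_neg (hy j)]
  have z3 : nf Bs b0 hb (f' * g') (l1 ++ (y0, b) :: l2) = 0 := by
    apply mem_Lt.1 (nf_mul_mem_Lt Bs b0 hb hf' hg')
    simp only [List.length_append, List.length_cons]; omega
  rw [z1, z2, z3, add_zero, add_zero, add_zero]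

theorem decompR (f : Ext k R) {P : ℕ} (hf : nf Bs b0 hb f ∈ Lt (P + 2)) {I : Type} [Fintype I]
    (x : I → Var R) (hx : Function.Injective x)
    (hshape : ∀ L : Wd R B, L.length = P + 1 → nf Bs b0 hb f L ≠ 0 → ∃ i w, L = w ++ [(x i, b0)]) :
    ∃ (F : I → Ext k R) (f' : Ext k R), f = ∑ i, F i * ιX k R (x i) + f' ∧
      (∀ i, nf Bs b0 hb (F i) ∈ Lt (P + 1)) ∧ nf Bs b0 hb f' ∈ Lt (P + 1) ∧
      ∀ i w, nf Bs b0 hb (F i) w = nf Bs b0 hb f (w ++ [(x i, b0)]) := by
  classical
  have hinj : ∀ i, Function.Injective (fun w : Wd R B => w ++ [(x i, b0)]) := by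
    intro i w w' h
    simpa using h
  let u : I → VV R B := fun i => (nf Bs b0 hb f).comapDomain (fun w => w ++ [(x i, b0)])
    (hinj i).injOn
  have hu : ∀ i w, u i w = nf Bs b0 hb f (w ++ [(x i, b0)]) := fun i w => rfl
  have huN : ∀ i, u i ∈ NSub b0 := by
    intro i
    rw [mem_NSub]
    intro w hw
    rw [hu]
    apply nf_eq_zero_of_not_nrm
    intro h
    exact hw (List.IsChain.left_of_append h)
  have huL : ∀ i, u i ∈ Lt (P + 1) := by
    intro i
    rw [mem_Lt]
    intro w hw
    rw [hu]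
    exact mem_Lt.1 hf _ (by simp; omega)
  have hnf : ∀ i, nf Bs b0 hb (sg Bs (u i)) = u i := fun i => nf_sg Bs b0 hb (huN i)
  refine ⟨fun i => sg Bs (u i), f - ∑ i, sg Bs (u i) * ιX k R (x i), by abel, ?_, ?_, ?_⟩
  · intro i; rw [hnf]; exact huL i
  · rw [mem_Lt]
    intro L hL
    rw [map_sub, Finsupp.sub_apply, map_sum, Finsupp.finsetSum_apply]
    by_cases hL2 : P + 2 ≤ L.length
    · rw [mem_Lt.1 hf L hL2, Finset.sum_eq_zero, sub_zero]
      intro i _
      apply mem_Lt.1 (nf_mul_ιX_mem_Lt Bs b0 hb (x i) _) L hL2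
      rw [hnf]; exact huL i
    · have hL3 : L.length = P + 1 := by omega
      by_cases hN : Nrm b0 L
      · obtain ⟨l1, ⟨y, b⟩, rfl⟩ : ∃ w0 c, L = w0 ++ [c] := by
          rcases List.eq_nil_or_concat L with rfl | ⟨w0, c, rfl⟩
          · simp at hL3
          · exact ⟨w0, c, by simp⟩
        have hl1 : l1.length = P := by simpa using hL3
        have hval : ∀ i, nf Bs b0 hb (sg Bs (u i) * ιX k R (x i)) (l1 ++ [(y, b)]) =
            if y = x i then (if b = b0 then nf Bs b0 hb f (l1 ++ [(y, b)]) else 0) else 0 := by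
          intro i
          have := triple Bs b0 hb (sg Bs (u i)) 1 (x i) y (l1 := l1) (l2 := []) (b := b)
            (by rw [hnf, hl1]; exact huL i)
            (by rw [nf_one]; exact single_mem_Lt (by simp) _) hN
          rw [mul_one] at this
          rw [this, hnf, nf_one, hu]
          by_cases hy : y = x i
          · rw [if_pos hy, if_pos hy, Finsupp.single_eq_same, ← hb, Module.Basis.repr_self]
            by_cases hbb : b = b0
            · subst hbb; simp [hy]
            · rw [if_neg hbb, Finsupp.single_eq_of_ne hbb]; simp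
          · rw [if_neg hy, if_neg hy]
        rw [Finset.sum_congr rfl (fun i _ => hval i)]
        by_cases h0 : nf Bs b0 hb f (l1 ++ [(y, b)]) = 0
        · rw [h0]; simp
        · obtain ⟨i, w, hiw⟩ := hshape _ hL3 h0
          have h3 := List.append_inj' hiw rfl
          simp only [List.cons.injEq, Prod.mk.injEq, and_true] at h3
          obtain ⟨_, h4, h5⟩ := h3
          rw [Finset.sum_eq_single i]
          · rw [if_pos h4, if_pos h5, sub_self]
          · intro i' _ hi'
            rw [if_neg]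
            intro h6
            exact hi' (hx (by rw [← h6, h4]))
          · intro h; exact absurd (Finset.mem_univ _) h
      · rw [nf_eq_zero_of_not_nrm Bs b0 hb _ hN, Finset.sum_eq_zero, sub_zero]
        intro i _
        exact nf_eq_zero_of_not_nrm Bs b0 hb _ hN
  · intro i w
    rw [hnf]; rfl

omit hb in
open Classical in
/-- left division by a variable -/
noncomputable def ldiv (x : Var R) : VV R B →ₗ[k] VV R B :=
  Finsupp.lsum k (fun L => match L with
    | [] => 0
    | (y, b) :: w => if y = x then lsingle w ∘ₗ (Bs.coord b0).smulRight (Bs b) else 0)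

omit hb in
theorem repr_ldiv (x : Var R) (v : VV R B) (w : Wd R B) (b : B) :
    Bs.repr (ldiv Bs b0 x v w) b = Bs.repr (v ((x, b) :: w)) b0 := by
  classical
  induction v using Finsupp.induction_linear with
  | zero => simp
  | add u v hu hv => simp [hu, hv]
  | single L r =>
    cases L with
    | nil => simp [ldiv]
    | cons a w' =>
      obtain ⟨y, b'⟩ := a
      simp only [ldiv, Finsupp.lsum_single]
      by_cases hy : y = x
      · subst hy
        simp only [if_true, LinearMap.comp_apply, Finsupp.lsingle_apply, LinearMap.smulRight_apply,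
          Module.Basis.coord_apply]
        rw [Finsupp.single_apply, Finsupp.single_apply]
        by_cases hw : w' = w
        · subst hw
          rw [if_pos rfl, map_smul, Finsupp.smul_apply, Module.Basis.repr_self, smul_eq_mul]
          by_cases hbb : b' = b
          · subst hbb; simp
          · rw [Finsupp.single_eq_of_ne (Ne.symm hbb), if_neg]
            · simp
            · simp [hbb]
        · rw [if_neg hw, if_neg]
          · simp
          · simp [hw]
      · rw [if_neg hy, Finsupp.single_apply, if_neg]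
        · simp
        · simp [hy]

theorem decompL (g : Ext k R) {Q : ℕ} (hg : nf Bs b0 hb g ∈ Lt (Q + 2)) {J : Type} [Fintype J]
    (y : J → Var R) (hy : Function.Injective y)
    (hshape : ∀ L : Wd R B, L.length = Q + 1 → nf Bs b0 hb g L ≠ 0 →
      (∃ j b w, L = (y j, b) :: w) ∧ ∃ c : k, nf Bs b0 hb g L = algebraMap k R c) :
    ∃ (G : J → Ext k R) (g' : Ext k R), g = ∑ j, ιX k R (y j) * G j + g' ∧
      (∀ j, nf Bs b0 hb (G j) ∈ Lt (Q + 1)) ∧ nf Bs b0 hb g' ∈ Lt (Q + 1) ∧
      ∀ j w b, Bs.repr (nf Bs b0 hb (G j) w) b = Bs.repr (nf Bs b0 hb g ((y j, b) :: w)) b0 := by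
  classical
  let u : J → VV R B := fun j => ldiv Bs b0 (y j) (nf Bs b0 hb g)
  have hu : ∀ j w b, Bs.repr (u j w) b = Bs.repr (nf Bs b0 hb g ((y j, b) :: w)) b0 :=
    fun j w b => repr_ldiv Bs b0 _ _ _ _
  have huN : ∀ j, u j ∈ NSub b0 := by
    intro j
    rw [mem_NSub]
    intro w hw
    apply Bs.ext_elem
    intro b
    rw [hu, nf_eq_zero_of_not_nrm Bs b0 hb g (fun h => hw (h.tail b0))]
    simp
  have huL : ∀ j, u j ∈ Lt (Q + 1) := by
    intro j
    rw [mem_Lt]
    intro w hw
    apply Bs.ext_elem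
    intro b
    rw [hu, mem_Lt.1 hg _ (by simp; omega)]
    simp
  have hnf : ∀ j, nf Bs b0 hb (sg Bs (u j)) = u j := fun j => nf_sg Bs b0 hb (huN j)
  refine ⟨fun j => sg Bs (u j), g - ∑ j, ιX k R (y j) * sg Bs (u j), by abel, ?_, ?_, ?_⟩
  · intro j; rw [hnf]; exact huL j
  · rw [mem_Lt]
    intro L hL
    rw [map_sub, Finsupp.sub_apply, map_sum, Finsupp.finsetSum_apply]
    by_cases hL2 : Q + 2 ≤ L.length
    · rw [mem_Lt.1 hg L hL2, Finset.sum_eq_zero, sub_zero]
      intro j _
      apply mem_Lt.1 (nf_ιX_mul_mem_Lt Bs b0 hb (y j) _) L hL2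
      rw [hnf]; exact huL j
    · have hL3 : L.length = Q + 1 := by omega
      by_cases hN : Nrm b0 L
      · cases L with
        | nil => simp at hL3
        | cons a l =>
          obtain ⟨z, b⟩ := a
          have hl : l.length = Q := by simpa using hL3
          have hval : ∀ j, nf Bs b0 hb (ιX k R (y j) * sg Bs (u j)) ((z, b) :: l) =
              if z = y j then algebraMap k R (Bs.repr (nf Bs b0 hb g ((z, b) :: l)) b0) else 0 := by
            intro j
            rw [nf_ιX_mul, hnf, top_opX Bs b0 (by rw [hl]; exact huL j) hN]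
            by_cases hz : z = y j
            · rw [if_pos hz, if_pos hz, hu, hz]
            · rw [if_neg hz, if_neg hz]
          rw [Finset.sum_congr rfl (fun j _ => hval j)]
          by_cases h0 : nf Bs b0 hb g ((z, b) :: l) = 0
          · rw [h0]; simp
          · obtain ⟨⟨j, b', w, hj⟩, c, hc⟩ := hshape _ hL3 h0
            simp only [List.cons.injEq, Prod.mk.injEq] at hj
            obtain ⟨⟨h4, h5⟩, h6⟩ := hj
            rw [Finset.sum_eq_single j]
            · rw [if_pos h4, hc]
              have : Bs.repr (algebraMap k R c) b0 = c := by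
                rw [Algebra.algebraMap_eq_smul_one, map_smul, Finsupp.smul_apply,
                  repr_one Bs b0 hb, smul_eq_mul, mul_one]
              rw [this, sub_self]
            · intro j' _ hj'
              rw [if_neg]
              intro h7
              exact hj' (hy (by rw [← h7, h4]))
            · intro h; exact absurd (Finset.mem_univ _) h
      · rw [nf_eq_zero_of_not_nrm Bs b0 hb _ hN, Finset.sum_eq_zero, sub_zero]
        intro j _
        exact nf_eq_zero_of_not_nrm Bs b0 hb _ hN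
  · intro j w b
    rw [hnf]; exact hu j w b

omit Bs hb in
theorem nrm_glue {l0 : Wd R B} {a c : Var R × B} {l2 : Wd R B} (h1 : Nrm b0 (l0 ++ [a]))
    (h2 : Nrm b0 (c :: l2)) (h3 : Adj b0 a c) : Nrm b0 (l0 ++ a :: c :: l2) := by
  unfold Nrm at *
  rw [List.isChain_split]
  exact ⟨h1, List.isChain_cons_cons.2 ⟨h3, h2⟩⟩

omit Bs hb in
theorem nrm_glue' {l0 : Wd R B} {a : Var R × B} {l2 : Wd R B} (h1 : Nrm b0 (l0 ++ [a]))
    (h2 : Nrm b0 (a :: l2)) : Nrm b0 (l0 ++ a :: l2) := by
  unfold Nrm at *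
  rw [List.isChain_split]
  exact ⟨h1, h2⟩

omit Bs hb in
theorem nrm_snoc {l1 : Wd R B} {x : Var R} {b : B} (h1 : Nrm b0 l1) (h2 : ∀ z, ¬ Forb z x) :
    Nrm b0 (l1 ++ [(x, b)]) := by
  induction l1 with
  | nil => exact List.isChain_singleton _
  | cons a l1 ih =>
    cases l1 with
    | nil => exact List.isChain_pair.2 (fun h => h2 _ h.2)
    | cons c l1 =>
      exact List.isChain_cons_cons.2 ⟨(List.isChain_cons_cons.1 h1).1, ih (h1.tail b0)⟩

omit Bs hb in
theorem nrm_snoc_congr {l1 : Wd R B} {x x' : Var R} {b b' : B} (h1 : Nrm b0 (l1 ++ [(x, b)]))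
    (h2 : ∀ z, Forb z x' → Forb z x) :
    Nrm b0 (l1 ++ [(x', b')]) := by
  induction l1 with
  | nil => exact List.isChain_singleton _
  | cons a l1 ih =>
    cases l1 with
    | nil =>
      simp only [List.cons_append, List.nil_append] at h1 ⊢
      exact List.isChain_pair.2 (fun h => (List.isChain_pair.1 h1) ⟨h.1, h2 _ h.2⟩)
    | cons c l1 =>
      exact List.isChain_cons_cons.2 ⟨(List.isChain_cons_cons.1 h1).1, ih (h1.tail b0)⟩

omit Bs b0 hb in
theorem scalar_cancel {c : k} (hc : c ≠ 0) {r : R} (h : r * algebraMap k R c = 0) : r = 0 := by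
  rw [← Algebra.commutes, ← Algebra.smul_def] at h
  exact (smul_eq_zero.1 h).resolve_left hc

theorem repr_algebraMap (c : k) : Bs.repr (algebraMap k R c) b0 = c := by
  rw [Algebra.algebraMap_eq_smul_one, map_smul, Finsupp.smul_apply,
    repr_one Bs b0 hb, smul_eq_mul, mul_one]

theorem step1 (hDK : DK k R) {f g : Ext k R} {P Q : ℕ} (hf : nf Bs b0 hb f ∈ Lt (P + 2))
    (hg : nf Bs b0 hb g ∈ Lt (Q + 2)) (hfg : nf Bs b0 hb (f * g) ∈ Lt (P + Q + 1))
    {l0 : Wd R B} {x : Var R} {b' : B} (hl0 : l0.length = P)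
    (hf0 : nf Bs b0 hb f (l0 ++ [(x, b')]) ≠ 0) {y : Var R} {b2 : B} {l2 : Wd R B}
    (hl2 : l2.length = Q) (hg0 : nf Bs b0 hb g ((y, b2) :: l2) ≠ 0) :
    Forb x y ∧ b' = b0 ∧ ∃ c : k, nf Bs b0 hb g ((y, b2) :: l2) = algebraMap k R c := by
  obtain ⟨a, ha⟩ : ∃ a, Bs.repr (nf Bs b0 hb f (l0 ++ [(x, b')])) a ≠ 0 := by
    by_contra h
    push Not at h
    apply hf0
    apply Bs.ext_elem
    intro a; rw [h]; simp
  obtain ⟨rc, hrc⟩ : ∃ rc, rc = rcL Bs a l0 x (nf Bs b0 hb f) := ⟨_, rfl⟩
  have hrc' : Bs.repr rc b' ≠ 0 := by rw [hrc, repr_rcL]; exact ha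
  have hrc0 : rc ≠ 0 := by
    rintro rfl
    simp at hrc'
  have Nf : ∀ b, Nrm b0 (l0 ++ [(x, b)]) := fun b =>
    nrm_concat_iff b0 (nrm_of_nf_ne_zero Bs b0 hb hf0)
  have Ng : Nrm b0 ((y, b2) :: l2) := nrm_of_nf_ne_zero Bs b0 hb hg0
  have key : ∀ b, Adj b0 (x, b) (y, b2) → Bs.repr (rc * nf Bs b0 hb g ((y, b2) :: l2)) b = 0 := by
    intro b hadj
    have h1 := core Bs b0 hb f (v := nf Bs b0 hb g) (l0 := l0) (x := x) (b := b)
      (l2 := (y, b2) :: l2) (by rw [hl0]; exact hf) (by simpa [hl2] using hg)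
      (nrm_glue b0 (Nf b) Ng hadj) a
    rw [← nf_mul, mem_Lt.1 hfg _ (by simp; omega)] at h1
    rw [hrc, ← h1]; simp
  have hForb : Forb x y := by
    by_contra hF
    have : rc * nf Bs b0 hb g ((y, b2) :: l2) = 0 := by
      apply Bs.ext_elem
      intro b
      rw [key b (fun h => hF h.2)]; simp
    rcases hDK.eq_zero this with h | h
    · exact hrc0 h
    · exact hg0 h
  have hsc : rc * nf Bs b0 hb g ((y, b2) :: l2) =
      algebraMap k R (Bs.repr (rc * nf Bs b0 hb g ((y, b2) :: l2)) b0) := by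
    apply Bs.ext_elem
    intro b
    rw [Algebra.algebraMap_eq_smul_one, map_smul, Finsupp.smul_apply, smul_eq_mul]
    by_cases hbb : b = b0
    · rw [hbb, repr_one Bs b0 hb, mul_one]
    · rw [key b (fun h => hbb h.1)]
      have : Bs.repr 1 b = 0 := by
        rw [← hb, Module.Basis.repr_self, Finsupp.single_eq_of_ne hbb]
      rw [this, mul_zero]
  rcases hDK _ _ ⟨_, hsc⟩ with h | h | ⟨⟨c1, h1⟩, h2⟩
  · exact absurd h hrc0
  · exact absurd h hg0
  · refine ⟨hForb, ?_, h2⟩
    by_contra hbb
    apply hrc'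
    rw [h1, Algebra.algebraMap_eq_smul_one, map_smul, Finsupp.smul_apply, ← hb,
      Module.Basis.repr_self, Finsupp.single_eq_of_ne hbb, smul_zero]

theorem DKmain (hDK : DK k R) {f g : Ext k R} {P Q : ℕ} (hf : nf Bs b0 hb f ∈ Lt (P + 2))
    (hg : nf Bs b0 hb g ∈ Lt (Q + 2)) (hfg : nf Bs b0 hb (f * g) ∈ Lt (P + Q + 1))
    {l0 : Wd R B} {x : Var R} {b' : B} (hl0 : l0.length = P)
    (hf0 : nf Bs b0 hb f (l0 ++ [(x, b')]) ≠ 0) {y : Var R} {b2 : B} {l2 : Wd R B}
    (hl2 : l2.length = Q) (hg0 : nf Bs b0 hb g ((y, b2) :: l2) ≠ 0) : False := by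
  classical
  have hsplit : ∀ L : Wd R B, L.length = P + 1 → ∃ w z c, L = w ++ [(z, c)] ∧ w.length = P := by
    intro L hL
    rcases List.eq_nil_or_concat L with rfl | ⟨w0, ⟨z, c⟩, rfl⟩
    · simp at hL
    · exact ⟨w0, z, c, by simp, by simpa using hL⟩
  have hsplit' : ∀ L : Wd R B, L.length = Q + 1 → ∃ z c w, L = (z, c) :: w ∧ w.length = Q := by
    intro L hL
    cases L with
    | nil => simp at hL
    | cons a w => exact ⟨a.1, a.2, w, rfl, by simpa using hL⟩
  obtain ⟨hForb, hb', cg, hcg⟩ := step1 Bs b0 hb hDK hf hg hfg hl0 hf0 hl2 hg0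
  subst hb'
  cases hForb with
  | tb l i j0 =>
    obtain ⟨F, f', hfe, hF, hf', hFv⟩ := decompR Bs b' hb f hf (fun i : Fin l.n => Var.t l i)
      (fun i i' h => by simpa using h) (by
        intro L hL hL0
        obtain ⟨w, z, c, rfl, hw⟩ := hsplit L hL
        obtain ⟨h1, h2, _⟩ := step1 Bs b' hb hDK hf hg hfg hw hL0 hl2 hg0
        cases h1 with
        | tb _ i' _ => exact ⟨i', w, by rw [h2]⟩)
    obtain ⟨G, g', hge, hG, hg', hGv⟩ := decompL Bs b' hb g hg
      (fun j : Option (Fin l.n) => Var.b l none j)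
      (fun j j' h => by simpa using h) (by
        intro L hL hL0
        obtain ⟨z, c, w, rfl, hw⟩ := hsplit' L hL
        obtain ⟨h1, h2, h3⟩ := step1 Bs b' hb hDK hf hg hfg hl0 hf0 hw hL0
        cases h1 with
        | tb _ _ j' => exact ⟨⟨j', c, w, rfl⟩, h3⟩)
    -- evaluation
    have eval : ∀ (p : Fin l.m) (j : Option (Fin l.n)) (l1 l3 : Wd R B) (b : B), l1.length = P →
        l3.length = Q → Nrm b' (l1 ++ (Var.b l (some p) j, b) :: l3) →
        nf Bs b' hb (∑ i, F i * ιR k R (l.α i p)) l1 *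
          algebraMap k R (Bs.repr (nf Bs b' hb (G j) l3) b) = 0 := by
      intro p j l1 l3 b h1 h3 hn
      have hlen : (l1 ++ (Var.b l (some p) j, b) :: l3).length = P + Q + 1 := by
        simp only [List.length_append, List.length_cons]; omega
      have e1 := mem_Lt.1 hfg (l1 ++ (Var.b l (some p) j, b) :: l3) (by rw [hlen])
      rw [hfe, hge, second Bs b' hb F _ f' G _ g' hF hf' hG hg' h1 h3 hn (by simp) (by simp)] at e1
      have e2 : ∑ i, ∑ j, F i * (ιX k R (Var.t l i) * ιX k R (Var.b l none j)) * G j =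
          ∑ i, ∑ j, (if j = some i then F i * G j else 0) -
          ∑ j, ∑ p, (∑ i, F i * ιR k R (l.α i p)) * ιX k R (Var.b l (some p) j) * G j := by
        have e3 : ∀ (i : Fin l.n) (j : Option (Fin l.n)),
            ιX k R (Var.t l i) * ιX k R (Var.b l none j) =
            (if j = some i then 1 else 0) - ∑ p, ιR k R (l.α i p) * ιX k R (.b l (some p) j) := by
          intro i j
          rw [← rel1 k l i j]; abel
        simp only [e3, mul_sub, sub_mul, Finset.sum_sub_distrib]
        congr 1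
        · refine Finset.sum_congr rfl fun i _ => Finset.sum_congr rfl fun j _ => ?_
          by_cases h : j = some i
          · simp [h]
          · simp [h]
        · rw [Finset.sum_comm]
          refine Finset.sum_congr rfl fun j _ => ?_
          simp only [Finset.mul_sum, Finset.sum_mul, mul_assoc]
          rw [Finset.sum_comm]
      rw [e2, map_sub, Finsupp.sub_apply] at e1
      have e4 : nf Bs b' hb (∑ i, ∑ j, (if j = some i then F i * G j else 0))
          (l1 ++ (Var.b l (some p) j, b) :: l3) = 0 := by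
        simp only [map_sum, Finsupp.finsetSum_apply]
        refine Finset.sum_eq_zero fun i _ => Finset.sum_eq_zero fun j _ => ?_
        by_cases h : j = some i
        · rw [if_pos h]
          exact mem_Lt.1 (nf_mul_mem_Lt Bs b' hb (hF i) (hG j)) _ (by rw [hlen])
        · rw [if_neg h]; simp
      have e5 : nf Bs b' hb (∑ j, ∑ p, (∑ i, F i * ιR k R (l.α i p)) *
          ιX k R (Var.b l (some p) j) * G j) (l1 ++ (Var.b l (some p) j, b) :: l3) =
          nf Bs b' hb (∑ i, F i * ιR k R (l.α i p)) l1 *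
          algebraMap k R (Bs.repr (nf Bs b' hb (G j) l3) b) := by
        have e6 : ∀ p', nf Bs b' hb (∑ i, F i * ιR k R (l.α i p')) ∈ Lt (P + 1) := by
          intro p'
          rw [map_sum]
          refine Submodule.sum_mem _ fun i _ => ?_
          apply nf_mul_mem_Lt Bs b' hb (hF i) (Q := 0)
          rw [nf_ιR]; exact single_mem_Lt (by simp) _
        simp only [map_sum (nf Bs b' hb), Finsupp.finsetSum_apply]
        rw [Finset.sum_eq_single j, Finset.sum_eq_single p]
        · rw [triple Bs b' hb _ (G j) _ _ (by rw [h1]; exact e6 p) (by rw [h3]; exact hG j) hn,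
            if_pos rfl]
          simp only [map_sum (nf Bs b' hb), Finsupp.finsetSum_apply]
        · intro p' _ hp'
          rw [triple Bs b' hb _ (G j) _ _ (by rw [h1]; exact e6 p') (by rw [h3]; exact hG j) hn,
            if_neg]
          simp only [Var.b.injEq, Option.some.injEq, heq_eq_eq, true_and, and_true]
          exact Ne.symm hp'
        · intro h; exact absurd (Finset.mem_univ _) h
        · intro j' _ hj'
          refine Finset.sum_eq_zero fun p' _ => ?_
          rw [triple Bs b' hb _ (G j') _ _ (by rw [h1]; exact e6 p') (by rw [h3]; exact hG j') hn,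
            if_neg]
          simp only [Var.b.injEq, Option.some.injEq, heq_eq_eq, true_and]
          exact fun h => hj' h.2.symm
        · intro h; exact absurd (Finset.mem_univ _) h
      rw [e4, e5, zero_sub, neg_eq_zero] at e1
      exact e1
    have hG0 : Bs.repr (nf Bs b' hb (G j0) l2) b2 ≠ 0 := by
      rw [hGv, hcg, repr_algebraMap Bs b' hb]
      rintro rfl
      rw [map_zero] at hcg
      exact hg0 hcg
    have hFa : ∀ (p : Fin l.m) (l1 : Wd R B), l1.length = P →
        nf Bs b' hb (∑ i, F i * ιR k R (l.α i p)) l1 = 0 := by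
      intro p l1 h1
      by_contra h0
      have hn1 : Nrm b' l1 := nrm_of_nf_ne_zero Bs b' hb h0
      have hn2 : Nrm b' ((Var.b l none j0, b2) :: l2) := nrm_of_nf_ne_zero Bs b' hb hg0
      have hn3 : Nrm b' ((Var.b l (some p) j0, b2) :: l2) := by
        rw [nrm_cons] at hn2 ⊢
        exact ⟨hn2.1, fun a ha => Adj_b b' (hn2.2 a ha)⟩
      have hn4 : Nrm b' (l1 ++ [(Var.b l (some p) j0, b2)]) :=
        nrm_snoc b' hn1 (by rintro z ⟨⟩)
      exact h0 (scalar_cancel hG0 (eval p j0 l1 l2 b2 h1 hl2 (nrm_glue' b' hn4 hn3)))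
    have hF0 : ∀ (i : Fin l.n) (l1 : Wd R B), l1.length = P → nf Bs b' hb (F i) l1 = 0 := by
      intro i l1 h1
      rcases List.eq_nil_or_concat l1 with rfl | ⟨w, ⟨z, c⟩, rfl⟩
      · have h2 := l.lreg (fun i => nf Bs b' hb (F i) []) (by
          ext p
          have h3 := hFa p [] h1
          rw [map_sum, Finsupp.finsetSum_apply] at h3
          rw [Pi.zero_apply, ← h3]
          simp only [Matrix.vecMul, dotProduct]
          refine Finset.sum_congr rfl fun i _ => ?_
          rw [(rc_mul Bs b' hb (F i) (l.α i p) b' [] (Var.t l i)).2])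
        exact congrFun h2 i
      · simp only [List.concat_eq_append] at h1 ⊢
        apply Bs.ext_elem
        intro a
        have h2 := l.lreg (fun i => rcL Bs a w z (nf Bs b' hb (F i))) (by
          ext p
          have h4 : rcL Bs a w z (nf Bs b' hb (∑ i, F i * ιR k R (l.α i p))) = 0 := by
            apply Bs.ext_elem
            intro b
            rw [repr_rcL, hFa p _ (by simpa using h1)]
            simp
          rw [map_sum, map_sum] at h4
          rw [Pi.zero_apply, ← h4]
          simp only [Matrix.vecMul, dotProduct]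
          refine Finset.sum_congr rfl fun i _ => ?_
          rw [(rc_mul Bs b' hb (F i) (l.α i p) a w z).1])
        rw [← repr_rcL, congrFun h2 i]
        simp
    exact hf0 (by rw [← hFv i l0]; exact hF0 i l0 hl0)
  | bc l i0 j0 =>
    obtain ⟨F, f', hfe, hF, hf', hFv⟩ := decompR Bs b' hb f hf
      (fun i : Option (Fin l.m) => Var.b l i none)
      (fun i i' h => by simpa using h) (by
        intro L hL hL0
        obtain ⟨w, z, c, rfl, hw⟩ := hsplit L hL
        obtain ⟨h1, h2, _⟩ := step1 Bs b' hb hDK hf hg hfg hw hL0 hl2 hg0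
        cases h1 with
        | bc _ i' _ => exact ⟨i', w, by rw [h2]⟩)
    obtain ⟨G, g', hge, hG, hg', hGv⟩ := decompL Bs b' hb g hg
      (fun j : Fin l.m => Var.c l j)
      (fun j j' h => by simpa using h) (by
        intro L hL hL0
        obtain ⟨z, c, w, rfl, hw⟩ := hsplit' L hL
        obtain ⟨h1, h2, h3⟩ := step1 Bs b' hb hDK hf hg hfg hl0 hf0 hw hL0
        cases h1 with
        | bc _ _ j' => exact ⟨⟨j', c, w, rfl⟩, h3⟩)
    -- evaluation
    have eval : ∀ (i : Option (Fin l.m)) (p : Fin l.n) (l1 l3 : Wd R B) (b : B), l1.length = P →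
        l3.length = Q → Nrm b' (l1 ++ (Var.b l i (some p), b) :: l3) →
        nf Bs b' hb (F i) l1 *
          algebraMap k R (Bs.repr (nf Bs b' hb (∑ j, ιR k R (l.α p j) * G j) l3) b) = 0 := by
      intro i p l1 l3 b h1 h3 hn
      have hlen : (l1 ++ (Var.b l i (some p), b) :: l3).length = P + Q + 1 := by
        simp only [List.length_append, List.length_cons]; omega
      have e1 := mem_Lt.1 hfg (l1 ++ (Var.b l i (some p), b) :: l3) (by rw [hlen])
      rw [hfe, hge, second Bs b' hb F _ f' G _ g' hF hf' hG hg' h1 h3 hn (by simp) (by simp)] at e1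
      have e2 : ∑ i, ∑ j, F i * (ιX k R (Var.b l i none) * ιX k R (Var.c l j)) * G j =
          ∑ i, ∑ j, (if i = some j then F i * G j else 0) -
          ∑ i, ∑ p, F i * ιX k R (Var.b l i (some p)) * (∑ j, ιR k R (l.α p j) * G j) := by
        have e3 : ∀ (i : Option (Fin l.m)) (j : Fin l.m),
            ιX k R (Var.b l i none) * ιX k R (Var.c l j) =
            (if i = some j then 1 else 0) - ∑ p, ιX k R (.b l i (some p)) * ιR k R (l.α p j) := by
          intro i j
          rw [← rel2 k l i j]; abel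
        simp only [e3, mul_sub, sub_mul, Finset.sum_sub_distrib]
        congr 1
        · refine Finset.sum_congr rfl fun i _ => Finset.sum_congr rfl fun j _ => ?_
          by_cases h : i = some j
          · simp [h]
          · simp [h]
        · refine Finset.sum_congr rfl fun i _ => ?_
          simp only [Finset.mul_sum, Finset.sum_mul, mul_assoc]
          rw [Finset.sum_comm]
      rw [e2, map_sub, Finsupp.sub_apply] at e1
      have e4 : nf Bs b' hb (∑ i, ∑ j, (if i = some j then F i * G j else 0))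
          (l1 ++ (Var.b l i (some p), b) :: l3) = 0 := by
        simp only [map_sum, Finsupp.finsetSum_apply]
        refine Finset.sum_eq_zero fun i _ => Finset.sum_eq_zero fun j _ => ?_
        by_cases h : i = some j
        · rw [if_pos h]
          exact mem_Lt.1 (nf_mul_mem_Lt Bs b' hb (hF i) (hG j)) _ (by rw [hlen])
        · rw [if_neg h]; simp
      have e6 : ∀ p', nf Bs b' hb (∑ j, ιR k R (l.α p' j) * G j) ∈ Lt (Q + 1) := by
        intro p'
        rw [map_sum]
        refine Submodule.sum_mem _ fun j _ => ?_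
        rw [nf_ιR_mul]
        exact Submodule.smul_mem _ _ (hG j)
      have e5 : nf Bs b' hb (∑ i, ∑ p, F i * ιX k R (Var.b l i (some p)) *
          (∑ j, ιR k R (l.α p j) * G j)) (l1 ++ (Var.b l i (some p), b) :: l3) =
          nf Bs b' hb (F i) l1 *
          algebraMap k R (Bs.repr (nf Bs b' hb (∑ j, ιR k R (l.α p j) * G j) l3) b) := by
        rw [map_sum, Finsupp.finsetSum_apply, Finset.sum_eq_single i]
        · rw [map_sum, Finsupp.finsetSum_apply, Finset.sum_eq_single p]
          · rw [triple Bs b' hb (F i) _ _ _ (by rw [h1]; exact hF i) (by rw [h3]; exact e6 p) hn,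
              if_pos rfl]
          · intro p' _ hp'
            rw [triple Bs b' hb (F i) _ _ _ (by rw [h1]; exact hF i) (by rw [h3]; exact e6 p') hn,
              if_neg]
            simp only [Var.b.injEq, Option.some.injEq, heq_eq_eq, true_and]
            exact Ne.symm hp'
          · intro h; exact absurd (Finset.mem_univ _) h
        · intro i' _ hi'
          rw [map_sum, Finsupp.finsetSum_apply]
          refine Finset.sum_eq_zero fun p' _ => ?_
          rw [triple Bs b' hb (F i') _ _ _ (by rw [h1]; exact hF i') (by rw [h3]; exact e6 p') hn,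
            if_neg]
          simp only [Var.b.injEq, Option.some.injEq, heq_eq_eq, true_and]
          exact fun h => hi' h.1.symm
        · intro h; exact absurd (Finset.mem_univ _) h
      rw [e4, e5, zero_sub, neg_eq_zero] at e1
      exact e1
    have hF0 : nf Bs b' hb (F i0) l0 ≠ 0 := by rw [hFv]; exact hf0
    have hGa : ∀ (p : Fin l.n) (l3 : Wd R B), l3.length = Q →
        nf Bs b' hb (∑ j, ιR k R (l.α p j) * G j) l3 = 0 := by
      intro p l3 h3
      by_contra h0
      have hn1 : Nrm b' l3 := nrm_of_nf_ne_zero Bs b' hb h0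
      obtain ⟨b, hb0⟩ : ∃ b, Bs.repr (nf Bs b' hb (∑ j, ιR k R (l.α p j) * G j) l3) b ≠ 0 := by
        by_contra h
        push Not at h
        apply h0
        apply Bs.ext_elem
        intro a; rw [h]; simp
      have hn2 : Nrm b' (l0 ++ [(Var.b l i0 none, b')]) := nrm_of_nf_ne_zero Bs b' hb hf0
      have hn3 : Nrm b' ((Var.b l i0 (some p), b) :: l3) := by
        rw [nrm_cons]
        refine ⟨hn1, fun a ha h => ?_⟩
        have := h.2
        simp only at this
        cases this
      have hn4 : Nrm b' (l0 ++ [(Var.b l i0 (some p), b)]) :=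
        nrm_snoc_congr b' hn2 (by
          rintro z hz
          cases hz
          exact Forb.tb _ _ _)
      exact hF0 (scalar_cancel hb0 (eval i0 p l0 l3 b hl0 h3 (nrm_glue' b' hn4 hn3)))
    have h2 := l.rreg (fun j => nf Bs b' hb (G j) l2) (by
      ext p
      have h3 := hGa p l2 hl2
      rw [map_sum, Finsupp.finsetSum_apply] at h3
      rw [Pi.zero_apply, ← h3]
      simp only [Matrix.mulVec, dotProduct]
      refine Finset.sum_congr rfl fun j _ => ?_
      rw [nf_ιR_mul]; rfl)
    have h3 : Bs.repr (nf Bs b' hb (G j0) l2) b2 ≠ 0 := by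
      rw [hGv, hcg, repr_algebraMap Bs b' hb]
      rintro rfl
      rw [map_zero] at hcg
      exact hg0 hcg
    apply h3
    rw [congrFun h2 j0]
    simp

omit Bs b0 hb in
theorem exists_deg {v : VV R B} (hv : v ≠ 0) :
    ∃ N, v ∈ (Lt (N + 1) : Submodule R (VV R B)) ∧ ∃ L : Wd R B, L.length = N ∧ v L ≠ 0 := by
  obtain ⟨L, hL, hmax⟩ := v.support.exists_max_image (fun w => w.length)
    (Finsupp.support_nonempty_iff.2 hv)
  refine ⟨L.length, ?_, L, rfl, Finsupp.mem_support_iff.1 hL⟩
  rw [mem_Lt]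
  intro w hw
  by_contra h
  have := hmax w (Finsupp.mem_support_iff.2 h)
  omega

end

section

variable {k R : Type} [Field k] [Ring R] [Algebra k R]

theorem ιR_injective [Nontrivial R] : Function.Injective (ιR k R) := by
  obtain ⟨B, Bs, b0, hb⟩ := exists_basis_one (k := k) (R := R)
  intro r s h
  have := congrArg (fun f => nf Bs b0 hb f []) h
  simpa [nf_ιR] using this

theorem DK_ext [Nontrivial R] (hDK : DK k R) : DK k (Ext k R) := by
  obtain ⟨B, Bs, b0, hb⟩ := exists_basis_one (k := k) (R := R)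
  rintro f g ⟨c, hc⟩
  by_cases hf : f = 0
  · exact Or.inl hf
  by_cases hg : g = 0
  · exact Or.inr (Or.inl hg)
  have hf' : nf Bs b0 hb f ≠ 0 := fun h => hf (nf_injective Bs b0 hb (by rw [h, map_zero]))
  have hg' : nf Bs b0 hb g ≠ 0 := fun h => hg (nf_injective Bs b0 hb (by rw [h, map_zero]))
  have hfg : nf Bs b0 hb (f * g) = single [] (algebraMap k R c) := by
    rw [hc, ← AlgHom.commutes (ιR k R), nf_ιR]
  obtain ⟨N, hN, L, hL, hL0⟩ := exists_deg hf'
  obtain ⟨M, hM, L', hL', hL0'⟩ := exists_deg hg'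
  cases N with
  | zero =>
    have hfr := nf_Lt_one Bs b0 hb hN
    obtain ⟨r, hr⟩ : ∃ r, r = nf Bs b0 hb f [] := ⟨_, rfl⟩
    rw [← hr] at hfr
    have hr0 : r ≠ 0 := by
      rintro rfl
      exact hf (by rw [hfr, map_zero])
    cases M with
    | zero =>
      have hgs := nf_Lt_one Bs b0 hb hM
      obtain ⟨s, hs⟩ : ∃ s, s = nf Bs b0 hb g [] := ⟨_, rfl⟩
      rw [← hs] at hgs
      have h1 : r * s = algebraMap k R c := by
        apply ιR_injective (k := k)
        rw [map_mul, ← hfr, ← hgs, hc, AlgHom.commutes]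
      rcases hDK r s ⟨c, h1⟩ with h | h | ⟨⟨c1, h2⟩, ⟨c2, h3⟩⟩
      · exact absurd h hr0
      · exact absurd (by rw [hgs, h, map_zero]) hg
      · exact Or.inr (Or.inr ⟨⟨c1, by rw [hfr, h2, AlgHom.commutes]⟩,
          ⟨c2, by rw [hgs, h3, AlgHom.commutes]⟩⟩)
    | succ M =>
      exfalso
      rw [hfr, nf_ιR_mul] at hfg
      have h1 := congrArg (fun v => v L') hfg
      simp only [Finsupp.smul_apply, smul_eq_mul] at h1
      rw [Finsupp.single_eq_of_ne (by rintro rfl; simp at hL')] at h1
      rcases hDK.eq_zero h1 with h | h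
      · exact hr0 h
      · exact hL0' h
  | succ P =>
    obtain ⟨l0, ⟨x, b'⟩, rfl⟩ : ∃ w0 c, L = w0 ++ [c] := by
      rcases List.eq_nil_or_concat L with rfl | ⟨w0, c, rfl⟩
      · simp at hL
      · exact ⟨w0, c, by simp⟩
    have hl0 : l0.length = P := by simpa using hL
    exfalso
    cases M with
    | zero =>
      have hgs := nf_Lt_one Bs b0 hb hM
      obtain ⟨s, hs⟩ : ∃ s, s = nf Bs b0 hb g [] := ⟨_, rfl⟩
      rw [← hs] at hgs
      apply hL0
      apply Bs.ext_elem
      intro a
      rw [← repr_rcL]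
      have h1 := (rc_mul Bs b0 hb f s a l0 x).1
      rw [← hgs, hfg, rcL_single_ne Bs a l0 x [] (by simp)] at h1
      rcases hDK.eq_zero h1.symm with h | h
      · rw [h]; simp
      · exact absurd (by rw [hgs, h, map_zero]) hg
    | succ Q =>
      cases L' with
      | nil => simp at hL'
      | cons a' l2 =>
        obtain ⟨y, b2⟩ := a'
        refine DKmain Bs b0 hb hDK hN hM ?_ hl0 hL0 (by simpa using hL') hL0'
        rw [hfg]
        exact single_mem_Lt (by simp) _

instance [Nontrivial R] : Nontrivial (Ext k R) := (ιR_injective (k := k) (R := R)).nontrivial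

end

end Pool.Agent.RDO
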