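import Pool.Agent.RDO.Basic

/-!
# The universal extension of an algebra making every regular matrix a retract of an element
-/

namespace Pool.Agent.RDO

open Matrix

/-- A matrix which is neither a left nor a right zero divisor (on vectors). -/
structure RegMat (R : Type) [Ring R] where
  /-- number of rows -/
  n : ℕ
  /-- number of columns -/
  m : ℕ
  /-- the matrix -/
  α : Matrix (Fin n) (Fin m) R
  rreg : ∀ x : Fin m → R, α *ᵥ x = 0 → x = 0
  lreg : ∀ y : Fin n → R, y ᵥ* α = 0 → y = 0

/-- The new variables. -/
inductive Var (R : Type) [Ring R] : Type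
  | t (l : RegMat R) (i : Fin l.n)
  | c (l : RegMat R) (j : Fin l.m)
  | b (l : RegMat R) (i : Option (Fin l.m)) (j : Option (Fin l.n))

section

variable (k R : Type) [Field k] [Ring R] [Algebra k R]

/-- generators coming from R -/
def gR (r : R) : FreeAlgebra k (R ⊕ Var R) := FreeAlgebra.ι k (Sum.inl r)

/-- generators coming from variables -/
def gX (x : Var R) : FreeAlgebra k (R ⊕ Var R) := FreeAlgebra.ι k (Sum.inr x)

/-- The defining relations. -/
inductive Rel : FreeAlgebra k (R ⊕ Var R) → FreeAlgebra k (R ⊕ Var R) → Prop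
  | add (r s : R) : Rel (gR k R (r + s)) (gR k R r + gR k R s)
  | mul (r s : R) : Rel (gR k R (r * s)) (gR k R r * gR k R s)
  | alg (c : k) : Rel (gR k R (algebraMap k R c)) (algebraMap k _ c)
  | r1 (l : RegMat R) (i : Fin l.n) (j : Option (Fin l.n)) :
      Rel (∑ p, gR k R (l.α i p) * gX k R (.b l (some p) j) + gX k R (.t l i) * gX k R (.b l none j))
        (if j = some i then 1 else 0)
  | r2 (l : RegMat R) (i : Option (Fin l.m)) (j : Fin l.m) :
      Rel (∑ p, gX k R (.b l i (some p)) * gR k R (l.α p j) + gX k R (.b l i none) * gX k R (.c l j))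
        (if i = some j then 1 else 0)

/-- The extension ring. -/
def Ext : Type := RingQuot (Rel k R)

noncomputable instance : Ring (Ext k R) := inferInstanceAs (Ring (RingQuot (Rel k R)))
noncomputable instance : Algebra k (Ext k R) := inferInstanceAs (Algebra k (RingQuot (Rel k R)))

/-- the quotient map -/
noncomputable def qm : FreeAlgebra k (R ⊕ Var R) →ₐ[k] Ext k R := RingQuot.mkAlgHom k (Rel k R)

variable {k R}

theorem qm_rel {x y : FreeAlgebra k (R ⊕ Var R)} (h : Rel k R x y) : qm k R x = qm k R y :=
  RingQuot.mkAlgHom_rel k h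

theorem qm_surj : Function.Surjective (qm k R) := RingQuot.mkAlgHom_surjective k _

variable (k R)

/-- the embedding of R -/
noncomputable def ιR : R →ₐ[k] Ext k R where
  toFun r := qm k R (gR k R r)
  map_one' := by
    have := qm_rel (Rel.alg (k := k) (R := R) 1)
    rw [map_one, map_one, map_one] at this
    exact this
  map_mul' r s := by rw [qm_rel (Rel.mul r s), map_mul]
  map_zero' := by
    have := qm_rel (Rel.alg (k := k) (R := R) 0)
    rw [map_zero, map_zero, map_zero] at this
    exact this
  map_add' r s := by rw [qm_rel (Rel.add r s), map_add]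
  commutes' c := by rw [qm_rel (Rel.alg c), AlgHom.commutes]

/-- the new variables in the extension -/
noncomputable def ιX (x : Var R) : Ext k R := qm k R (gX k R x)

variable {R}

theorem rel1 (l : RegMat R) (i : Fin l.n) (j : Option (Fin l.n)) :
    ∑ p, ιR k R (l.α i p) * ιX k R (.b l (some p) j) + ιX k R (.t l i) * ιX k R (.b l none j) =
      if j = some i then 1 else 0 := by
  have := qm_rel (Rel.r1 (k := k) l i j)
  simp only [map_add, map_sum, map_mul] at this
  rw [apply_ite (qm k R), map_one, map_zero] at this
  exact this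

theorem rel2 (l : RegMat R) (i : Option (Fin l.m)) (j : Fin l.m) :
    ∑ p, ιX k R (.b l i (some p)) * ιR k R (l.α p j) + ιX k R (.b l i none) * ιX k R (.c l j) =
      if i = some j then 1 else 0 := by
  have := qm_rel (Rel.r2 (k := k) l i j)
  simp only [map_add, map_sum, map_mul] at this
  rw [apply_ite (qm k R), map_one, map_zero] at this
  exact this

variable {k}

/-- universal property -/
noncomputable def liftE {E : Type} [Semiring E] [Algebra k E] (f : R →ₐ[k] E) (g : Var R → E)
    (h1 : ∀ (l : RegMat R) (i : Fin l.n) (j : Option (Fin l.n)),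
      ∑ p, f (l.α i p) * g (.b l (some p) j) + g (.t l i) * g (.b l none j) =
        if j = some i then 1 else 0)
    (h2 : ∀ (l : RegMat R) (i : Option (Fin l.m)) (j : Fin l.m),
      ∑ p, g (.b l i (some p)) * f (l.α p j) + g (.b l i none) * g (.c l j) =
        if i = some j then 1 else 0) : Ext k R →ₐ[k] E :=
  RingQuot.liftAlgHom k ⟨FreeAlgebra.lift k (Sum.elim f g), by
    intro x y h
    induction h with
    | add r s => simp [gR]
    | mul r s => simp [gR]
    | alg c => simp [gR]
    | r1 l i j => simpa [gR, gX, apply_ite] using h1 l i j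
    | r2 l i j => simpa [gR, gX, apply_ite] using h2 l i j⟩

section
variable {E : Type} [Semiring E] [Algebra k E] (f : R →ₐ[k] E) (g : Var R → E)
    (h1 : ∀ (l : RegMat R) (i : Fin l.n) (j : Option (Fin l.n)),
      ∑ p, f (l.α i p) * g (.b l (some p) j) + g (.t l i) * g (.b l none j) =
        if j = some i then 1 else 0)
    (h2 : ∀ (l : RegMat R) (i : Option (Fin l.m)) (j : Fin l.m),
      ∑ p, g (.b l i (some p)) * f (l.α p j) + g (.b l i none) * g (.c l j) =
        if i = some j then 1 else 0)

@[simp] theorem liftE_ιR (r : R) : liftE f g h1 h2 (ιR k R r) = f r := by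
  show RingQuot.liftAlgHom k _ (RingQuot.mkAlgHom k _ _) = _
  rw [RingQuot.liftAlgHom_mkAlgHom_apply]
  simp [gR]

@[simp] theorem liftE_ιX (x : Var R) : liftE f g h1 h2 (ιX k R x) = g x := by
  show RingQuot.liftAlgHom k _ (RingQuot.mkAlgHom k _ _) = _
  rw [RingQuot.liftAlgHom_mkAlgHom_apply]
  simp [gX]

end

/-- induction principle -/
theorem Ext.induction {P : Ext k R → Prop} (hR : ∀ r, P (ιR k R r)) (hX : ∀ x, P (ιX k R x))
    (hadd : ∀ a b, P a → P b → P (a + b)) (hmul : ∀ a b, P a → P b → P (a * b)) (a : Ext k R) :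
    P a := by
  obtain ⟨a, rfl⟩ := qm_surj a
  induction a using FreeAlgebra.induction with
  | grade0 c =>
    have : qm k R (algebraMap k _ c) = ιR k R (algebraMap k R c) := by
      rw [AlgHom.commutes, AlgHom.commutes]
    rw [this]; exact hR _
  | grade1 x =>
    rcases x with r | x
    · exact hR r
    · exact hX x
  | mul a b ha hb => rw [map_mul]; exact hmul _ _ ha hb
  | add a b ha hb => rw [map_add]; exact hadd _ _ ha hb

theorem Ext.algHom_ext {E : Type} [Ring E] [Algebra k E] {f g : Ext k R →ₐ[k] E}
    (hR : ∀ r, f (ιR k R r) = g (ιR k R r)) (hX : ∀ x, f (ιX k R x) = g (ιX k R x)) : f = g := by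
  ext a
  induction a using Ext.induction with
  | hR r => exact hR r
  | hX x => exact hX x
  | hadd a b ha hb => rw [map_add, map_add, ha, hb]
  | hmul a b ha hb => rw [map_mul, map_mul, ha, hb]

end

end Pool.Agent.RDO
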