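import Pool.Agent.RDO.DKExt

/-!
# Generic blocks and transfer of right independence
-/

namespace Pool.Agent.RDO

open Matrix
open Finsupp (single lsingle)

/-- right independence of a pair -/
def RInd {R : Type} [Ring R] (a b : R) : Prop := ∀ x y : R, a * x + b * y = 0 → x = 0 ∧ y = 0

section

variable {k R : Type} [Field k] [Ring R] [Algebra k R]

theorem RInd_ιR [Nontrivial R] {a b : R} (h : RInd a b) : RInd (ιR k R a) (ιR k R b) := by
  obtain ⟨B, Bs, b0, hb⟩ := exists_basis_one (k := k) (R := R)
  intro x y hxy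
  have h1 : a • nf Bs b0 hb x + b • nf Bs b0 hb y = 0 := by
    rw [← nf_ιR_mul, ← nf_ιR_mul, ← map_add, hxy, map_zero]
  have h2 : ∀ w, nf Bs b0 hb x w = 0 ∧ nf Bs b0 hb y w = 0 := by
    intro w
    apply h
    have := DFunLike.congr_fun h1 w
    simpa using this
  constructor
  · apply nf_injective Bs b0 hb
    rw [map_zero]
    ext w; exact (h2 w).1
  · apply nf_injective Bs b0 hb
    rw [map_zero]
    ext w; exact (h2 w).2

end

/-- the identity matrix as a regular matrix -/
def idReg (R : Type) [Ring R] (N : ℕ) : RegMat R where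
  n := N
  m := N
  α := 1
  rreg x hx := by simpa using hx
  lreg y hy := by simpa using hy

section

variable {R : Type} [Ring R]

/-- generic variables -/
def gv (R : Type) [Ring R] (N : ℕ) (i j : Fin N) : Var R := .b (idReg R N) (some i) (some j)

theorem gv_inj {N : ℕ} {i j i' j' : Fin N} (h : gv R N i j = gv R N i' j') : i = i' ∧ j = j' := by
  simp only [gv, Var.b.injEq, heq_eq_eq, true_and, Option.some.injEq] at h
  exact h

theorem not_forb_gv (N : ℕ) (i j : Fin N) (x : Var R) : ¬ Forb x (gv R N i j) := by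
  unfold gv
  intro h
  cases h

end

section

variable {k R : Type} [Field k] [Ring R] [Algebra k R]

theorem gv_right [Nontrivial R] (N : ℕ) (i : Fin N) (v : Fin N → Ext k R)
    (h : ∑ j, ιX k R (gv R N i j) * v j = 0) (j : Fin N) : v j = 0 := by
  obtain ⟨B, Bs, b0, hb⟩ := exists_basis_one (k := k) (R := R)
  have h1 : ∑ j, opX Bs b0 (gv R N i j) (nf Bs b0 hb (v j)) = 0 := by
    rw [← map_zero (nf Bs b0 hb), ← h, map_sum]
    simp only [nf_ιX_mul]
  have h2 : ∀ (u : VV R B) (j : Fin N) (j' : Fin N) (b : B) (w : Wd R B),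
      opX Bs b0 (gv R N i j') u ((gv R N i j, b) :: w) =
        if j' = j then algebraMap k R (Bs.repr (u w) b) else 0 := by
    classical
    intro u j j' b w
    induction u using Finsupp.induction_linear with
    | zero => simp
    | add u v hu hv =>
      rw [map_add, Finsupp.add_apply, hu, hv, Finsupp.add_apply]
      by_cases hj : j' = j
      · simp [hj]
      · simp [hj]
    | single w' r =>
      rw [opX_single, gv, delta_b_some Bs b0, smul_zero, add_zero, app_apply, Finsupp.single_apply]
      by_cases hj : j' = j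
      · subst hj
        by_cases hw : w = w'
        · subst hw
          simp [gv]
        · rw [if_neg, if_neg (Ne.symm hw)]
          · simp
          · rintro ⟨_, h⟩; exact hw h
      · rw [if_neg, if_neg hj]
        rintro ⟨h, _⟩
        have := (gv_inj h).2
        exact hj this.symm
  apply nf_injective Bs b0 hb
  rw [map_zero]
  ext w
  apply Bs.ext_elem
  intro b
  have h3 := DFunLike.congr_fun h1 ((gv R N i j, b) :: w)
  rw [Finsupp.finsetSum_apply] at h3
  simp only [h2] at h3
  rw [Finset.sum_ite_eq' Finset.univ j] at h3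
  simp only [Finset.mem_univ, if_true, Finsupp.coe_zero, Pi.zero_apply] at h3
  have h4 := (FaithfulSMul.algebraMap_injective k R) (h3.trans (map_zero _).symm)
  rw [h4]
  simp

theorem nrm_concat_gv {B : Type} (b0 : B) {w : Wd R B} (hw : Nrm b0 w) (N : ℕ) (i j : Fin N) (b : B) :
    Nrm b0 (w ++ [(gv R N i j, b)]) := by
  induction w with
  | nil => exact List.isChain_singleton _
  | cons a w ih =>
    obtain ⟨x, c⟩ := a
    rw [List.cons_append, nrm_cons]
    rw [nrm_cons] at hw
    refine ⟨ih hw.1, ?_⟩
    cases w with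
    | nil =>
      simp only [List.nil_append, List.head?_cons, Option.mem_def, Option.some.injEq,
        forall_eq']
      rintro ⟨_, h2⟩
      exact not_forb_gv _ _ _ _ h2
    | cons d w => simpa using hw.2

theorem nf_mul_gv {B : Type} (Bs : Module.Basis B k R) (b0 : B) (hb : Bs b0 = 1) (F : Ext k R)
    (N : ℕ) (i j : Fin N) (w : Wd R B) (i' : Fin N) :
    nf Bs b0 hb (F * ιX k R (gv R N i' j)) (w ++ [(gv R N i j, b0)]) =
      if i' = i then nf Bs b0 hb F w else 0 := by
  classical
  have hexp : F * ιX k R (gv R N i' j) =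
      (nf Bs b0 hb F).sum (fun w s => ιR k R s * (wd Bs w * ιX k R (gv R N i' j))) := by
    conv_lhs => rw [← sg_nf Bs b0 hb F, ← Finsupp.sum_single (nf Bs b0 hb F)]
    simp only [Finsupp.sum, map_sum, sg_single, Finset.sum_mul, mul_assoc]
  rw [hexp]
  conv_rhs => rw [← Finsupp.sum_single (nf Bs b0 hb F)]
  simp only [Finsupp.sum, map_sum, Finsupp.finsetSum_apply]
  by_cases hi : i' = i
  · subst hi
    simp only [if_true]
    refine Finset.sum_congr rfl fun w' hw' => ?_
    have hn := nrm_of_nf_ne_zero Bs b0 hb (Finsupp.mem_support_iff.1 hw')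
    have h1 : wd Bs w' * ιX k R (gv R N i' j) = wd Bs (w' ++ [(gv R N i' j, b0)]) := by
      rw [wd_append]; simp [wd, hb]
    rw [h1, nf_ιR_mul, nf_wd Bs b0 hb (nrm_concat_gv b0 hn _ _ _ _), Finsupp.smul_single,
      Finsupp.single_apply, Finsupp.single_apply]
    by_cases hw : w' = w
    · simp [hw]
    · rw [if_neg, if_neg hw]
      intro h
      exact hw (List.append_cancel_right h)
  · simp only [hi, if_false]
    refine Finset.sum_eq_zero fun w' hw' => ?_
    have hn := nrm_of_nf_ne_zero Bs b0 hb (Finsupp.mem_support_iff.1 hw')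
    have h1 : wd Bs w' * ιX k R (gv R N i' j) = wd Bs (w' ++ [(gv R N i' j, b0)]) := by
      rw [wd_append]; simp [wd, hb]
    rw [h1, nf_ιR_mul, nf_wd Bs b0 hb (nrm_concat_gv b0 hn _ _ _ _), Finsupp.smul_single,
      Finsupp.single_apply, if_neg]
    intro h
    have h3 := List.append_inj' h rfl
    simp only [List.cons.injEq, Prod.mk.injEq, and_true] at h3
    exact hi (gv_inj h3.2).1

theorem gv_left [Nontrivial R] (N : ℕ) (j : Fin N) (v : Fin N → Ext k R)
    (h : ∑ i, v i * ιX k R (gv R N i j) = 0) (i : Fin N) : v i = 0 := by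
  obtain ⟨B, Bs, b0, hb⟩ := exists_basis_one (k := k) (R := R)
  apply nf_injective Bs b0 hb
  rw [map_zero]
  ext w
  have h1 : nf Bs b0 hb (∑ i, v i * ιX k R (gv R N i j)) (w ++ [(gv R N i j, b0)]) = 0 := by
    rw [h, map_zero]; rfl
  rw [map_sum, Finsupp.finsetSum_apply] at h1
  simp only [nf_mul_gv] at h1
  rw [Finset.sum_ite_eq' Finset.univ i] at h1
  simpa using h1

theorem RInd_gv [Nontrivial R] :
    RInd (ιX k R (gv R 2 0 0)) (ιX k R (gv R 2 0 1)) := by
  intro x y hxy
  have h := gv_right (k := k) (R := R) 2 0 ![x, y] (by simpa [Fin.sum_univ_two] using hxy)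
  exact ⟨by simpa using h 0, by simpa using h 1⟩

/-- every square matrix over the extension with a zero row and a zero column at the index i0
can be made regular -/
theorem exists_reg [Nontrivial R] (hq : QF k (Ext k R)) {N : ℕ}
    (A : Matrix (Fin N) (Fin N) (Ext k R)) (i0 : Fin N)
    (hr : ∀ j, A i0 j = 0) (hc : ∀ i, A i i0 = 0) :
    ∃ (e f T : Matrix (Fin N) (Fin N) (Ext k R)),
      e * A = 0 ∧ e * e = e ∧ A * f = 0 ∧ f * f = f ∧
      (∀ x : Fin N → Ext k R, (A + e * T * f) *ᵥ x = 0 → x = 0) ∧
      (∀ y : Fin N → Ext k R, y ᵥ* (A + e * T * f) = 0 → y = 0) := by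
  obtain ⟨e, he1, he2⟩ := exists_left_kernel (k := k) hq A
  obtain ⟨f, hf1, hf2⟩ := exists_right_kernel (k := k) hq A
  have hee : e * e = e := by
    ext i j
    have h1 : (e i) ᵥ* A = 0 := by
      ext j
      have := congrFun (congrFun he1 i) j
      simpa [Matrix.mul_apply, Matrix.vecMul, dotProduct] using this
    have h2 := congrFun (he2 _ h1) j
    simpa [Matrix.mul_apply, Matrix.vecMul, dotProduct] using h2
  have hff : f * f = f := by
    ext i j
    have h1 : A *ᵥ (fun i => f i j) = 0 := by
      ext i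
      have := congrFun (congrFun hf1 i) j
      simpa [Matrix.mul_apply, Matrix.mulVec, dotProduct] using this
    have h2 := congrFun (hf2 _ h1) i
    simpa [Matrix.mul_apply, Matrix.mulVec, dotProduct] using h2
  have he0 : e i0 = Pi.single i0 1 := by
    have h1 : (Pi.single i0 1 : Fin N → Ext k R) ᵥ* A = 0 := by
      rw [Matrix.single_one_vecMul]
      ext j; exact hr j
    have h2 := he2 _ h1
    rw [Matrix.single_one_vecMul] at h2
    exact h2
  have hf0 : ∀ i, f i i0 = (Pi.single i0 1 : Fin N → Ext k R) i := by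
    have h1 : A *ᵥ (Pi.single i0 1 : Fin N → Ext k R) = 0 := by
      rw [Matrix.mulVec_single_one]
      ext j; exact hc j
    have h2 := hf2 _ h1
    rw [Matrix.mulVec_single_one] at h2
    exact fun i => congrFun h2 i
  let T : Matrix (Fin N) (Fin N) (Ext k R) := fun i j => ιX k R (gv R N i j)
  refine ⟨e, f, T, he1, hee, hf1, hff, ?_, ?_⟩
  · intro x hx
    have h1 : (e * T * f) *ᵥ x = 0 := by
      have := congrArg (fun v => e *ᵥ v) hx
      simp only [Matrix.mulVec_mulVec, Matrix.mul_add, he1, zero_add, Matrix.mulVec_zero] at this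
      rw [← Matrix.mul_assoc, ← Matrix.mul_assoc, hee] at this
      exact this
    have h2 : A *ᵥ x = 0 := by
      rw [Matrix.add_mulVec, h1, add_zero] at hx
      exact hx
    have h3 := hf2 x h2
    rw [← Matrix.mulVec_mulVec, h3] at h1
    have h4 := congrFun h1 i0
    rw [← Matrix.mulVec_mulVec] at h4
    have h5 : (e *ᵥ (T *ᵥ x)) i0 = (T *ᵥ x) i0 := by
      show e i0 ⬝ᵥ _ = _
      rw [he0, single_one_dotProduct]
    rw [h5] at h4
    ext j
    exact gv_right N i0 x (by simpa [T, Matrix.mulVec, dotProduct] using h4) j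
  · intro y hy
    have h1 : y ᵥ* (e * T * f) = 0 := by
      have := congrArg (fun v => v ᵥ* f) hy
      simp only [Matrix.vecMul_vecMul, Matrix.add_mul, hf1, zero_add, Matrix.zero_vecMul] at this
      rw [Matrix.mul_assoc, hff] at this
      exact this
    have h2 : y ᵥ* A = 0 := by
      rw [Matrix.vecMul_add, h1, add_zero] at hy
      exact hy
    have h3 := he2 y h2
    rw [Matrix.mul_assoc, ← Matrix.vecMul_vecMul, h3, ← Matrix.vecMul_vecMul] at h1
    have h4 := congrFun h1 i0
    have h5 : ((y ᵥ* T) ᵥ* f) i0 = (y ᵥ* T) i0 := by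
      show _ ⬝ᵥ (fun i => f i i0) = _
      have : (fun i => f i i0) = Pi.single i0 1 := funext hf0
      rw [this, dotProduct_single_one]
    rw [h5] at h4
    ext j
    exact gv_left N i0 y (by simpa [T, Matrix.vecMul, dotProduct] using h4) j

end

end Pool.Agent.RDO
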