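import Pool.Agent.RDO.Chain

/-!
# Relative divisibility implies purity over the union
-/

namespace Pool.Agent.RDO

open Matrix

section vm

set_option linter.unusedSectionVars false

variable {S M : Type*} [Ring S] [AddCommGroup M] [Module Sᵐᵒᵖ M]
  {n m l : Type*} [Fintype n] [Fintype m] [Fintype l]

/-- row vector with entries in a right module times matrix -/
def vm (x : n → M) (A : Matrix n m S) : m → M := fun j => ∑ i, MulOpposite.op (A i j) • x i

theorem vm_apply (x : n → M) (A : Matrix n m S) (j : m) :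
    vm x A j = ∑ i, MulOpposite.op (A i j) • x i := rfl

theorem vm_vm (x : n → M) (A : Matrix n m S) (B : Matrix m l S) : vm (vm x A) B = vm x (A * B) := by
  ext j
  simp only [vm_apply, Matrix.mul_apply, Finset.smul_sum, smul_smul, Finset.op_sum,
    MulOpposite.op_mul, Finset.sum_smul]
  exact Finset.sum_comm

theorem vm_add (x : n → M) (A B : Matrix n m S) : vm x (A + B) = vm x A + vm x B := by
  ext j
  simp only [vm_apply, Matrix.add_apply, MulOpposite.op_add, add_smul, Finset.sum_add_distrib,
    Pi.add_apply]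

theorem vm_sub (x : n → M) (A B : Matrix n m S) : vm x (A - B) = vm x A - vm x B := by
  ext j
  simp only [vm_apply, Matrix.sub_apply, MulOpposite.op_sub, sub_smul, Finset.sum_sub_distrib,
    Pi.sub_apply]

theorem sub_vm (x y : n → M) (A : Matrix n m S) : vm (x - y) A = vm x A - vm y A := by
  ext j
  simp only [vm_apply, Pi.sub_apply, smul_sub, Finset.sum_sub_distrib]

theorem vm_zero (x : n → M) : vm x (0 : Matrix n m S) = 0 := by
  ext j
  simp [vm_apply]

theorem zero_vm (A : Matrix n m S) : vm (0 : n → M) A = 0 := by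
  ext j
  simp [vm_apply]

theorem vm_one [DecidableEq n] (x : n → M) : vm x (1 : Matrix n n S) = x := by
  ext j
  rw [vm_apply, Finset.sum_eq_single j]
  · simp
  · intro b _ hb
    simp [hb]
  · simp

/-- A matrix is good for N in M. -/
def GoodM (N : Submodule Sᵐᵒᵖ M) (A : Matrix n m S) : Prop :=
  ∀ x : n → M, (∀ j, vm x A j ∈ N) → ∃ y : n → M, (∀ i, y i ∈ N) ∧ vm y A = vm x A

theorem vm_mem {N : Submodule Sᵐᵒᵖ M} {x : n → M} (hx : ∀ i, x i ∈ N) (A : Matrix n m S) (j : m) :
    vm x A j ∈ N := Submodule.sum_mem _ fun i _ => Submodule.smul_mem _ _ (hx i)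

/-- retracts of elements are good -/
theorem good_of_rel {N : Submodule Sᵐᵒᵖ M} [DecidableEq n] [DecidableEq m]
    (hN : ∀ (r : S) (x : M), MulOpposite.op r • x ∈ N → ∃ y ∈ N, MulOpposite.op r • y = MulOpposite.op r • x)
    (A : Matrix n m S) (t : n → S) (c : m → S) (b : Option m → Option n → S)
    (h1 : ∀ (i' : n) (j : Option n),
        ∑ p, A i' p * b (some p) j + t i' * b none j = if j = some i' then 1 else 0)
    (h2 : ∀ (i' : Option m) (j : m),
        ∑ p, b i' (some p) * A p j + b i' none * c j = if i' = some j then 1 else 0) :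
    GoodM N A := by
  intro x hx
  -- xt
  set u0 : M := ∑ i, MulOpposite.op (t i) • x i with hu0
  have key : ∀ j : Option n, MulOpposite.op (b none j) • u0 =
      (∑ i, (if j = some i then x i else 0)) - ∑ p, MulOpposite.op (b (some p) j) • vm x A p := by
    intro j
    have h3 : ∀ i, MulOpposite.op (t i * b none j) • x i = (if j = some i then x i else 0) -
        ∑ p, MulOpposite.op (A i p * b (some p) j) • x i := by
      intro i
      have h4 : t i * b none j = (if j = some i then 1 else 0) - ∑ p, A i p * b (some p) j := by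
        rw [← h1 i j]; abel
      rw [h4, MulOpposite.op_sub, sub_smul, Finset.op_sum, Finset.sum_smul]
      congr 1
      by_cases hj : j = some i
      · simp [hj]
      · simp [hj]
    rw [hu0, Finset.smul_sum]
    simp only [smul_smul, ← MulOpposite.op_mul, h3, Finset.sum_sub_distrib]
    congr 1
    rw [Finset.sum_comm]
    refine Finset.sum_congr rfl fun p _ => ?_
    simp only [vm_apply, Finset.smul_sum, smul_smul, ← MulOpposite.op_mul]
  obtain ⟨v, hv, hv2⟩ := hN (b none none) u0 (by
    rw [key]
    refine Submodule.sub_mem _ ?_ (Submodule.sum_mem _ fun p _ => Submodule.smul_mem _ _ (hx p))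
    simp)
  set u : M := u0 - v with hu
  have hub : MulOpposite.op (b none none) • u = 0 := by
    rw [hu, smul_sub, hv2, sub_self]
  let z : n → M := fun j => MulOpposite.op (b none (some j)) • u
  have hz : vm z A = 0 := by
    ext j
    have h3 : vm z A j = MulOpposite.op (∑ p, b none (some p) * A p j) • u := by
      simp only [vm_apply, z, smul_smul, ← MulOpposite.op_mul, Finset.op_sum, Finset.sum_smul]
    have h4 : ∑ p, b none (some p) * A p j = - (b none none * c j) := by
      have := h2 none j
      simp only [reduceCtorEq, if_false] at this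
      rw [eq_neg_iff_add_eq_zero]; exact this
    rw [h3, h4, MulOpposite.op_neg, neg_smul, MulOpposite.op_mul, mul_smul, hub, smul_zero, neg_zero]
    rfl
  refine ⟨x - z, ?_, by rw [sub_vm, hz, sub_zero]⟩
  intro j
  have h5 : z j = x j - ∑ p, MulOpposite.op (b (some p) (some j)) • vm x A p -
      MulOpposite.op (b none (some j)) • v := by
    show MulOpposite.op (b none (some j)) • (u0 - v) = _
    rw [smul_sub, key]
    congr 2
    simp
  rw [Pi.sub_apply, h5]
  have h6 : x j - (x j - ∑ p, MulOpposite.op (b (some p) (some j)) • vm x A p -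
      MulOpposite.op (b none (some j)) • v) = ∑ p, MulOpposite.op (b (some p) (some j)) • vm x A p +
      MulOpposite.op (b none (some j)) • v := by abel
  rw [h6]
  exact Submodule.add_mem _ (Submodule.sum_mem _ fun p _ => Submodule.smul_mem _ _ (hx p))
    (Submodule.smul_mem _ _ hv)

theorem good_of_kernel {N : Submodule Sᵐᵒᵖ M} [DecidableEq n] (A e f T : Matrix n n S)
    (h1 : e * A = 0) (h2 : e * e = e) (h3 : A * f = 0) (h4 : f * f = f)
    (hg : GoodM N (A + e * T * f)) : GoodM N A := by
  intro x hx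
  have hA : (1 - e) * A = A := by rw [Matrix.sub_mul, h1, Matrix.one_mul, sub_zero]
  have h5 : (1 - e) * (A + e * T * f) = A := by
    rw [Matrix.mul_add, hA, ← Matrix.mul_assoc, ← Matrix.mul_assoc, Matrix.sub_mul, h2,
      Matrix.one_mul, sub_self, Matrix.zero_mul, Matrix.zero_mul, add_zero]
  have h6 : vm (vm x (1 - e)) (A + e * T * f) = vm x A := by rw [vm_vm, h5]
  obtain ⟨w, hw, hw2⟩ := hg (vm x (1 - e)) (by rw [h6]; exact hx)
  rw [h6] at hw2
  refine ⟨w, hw, ?_⟩
  have h7 : vm w (e * T * f) = 0 := by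
    have := congrArg (fun v => vm v f) hw2
    simp only [vm_vm, Matrix.add_mul, h3, zero_add, vm_zero] at this
    rw [Matrix.mul_assoc, h4] at this
    exact this
  rw [vm_add, h7, add_zero] at hw2
  exact hw2

end vm

section

variable (k : Type) [Field k]

theorem lim_good_sq {M : Type*} [AddCommGroup M] [Module (Lim k)ᵐᵒᵖ M]
    {N : Submodule (Lim k)ᵐᵒᵖ M}
    (hN : ∀ (r : Lim k) (x : M), MulOpposite.op r • x ∈ N →
      ∃ y ∈ N, MulOpposite.op r • y = MulOpposite.op r • x)
    {p : ℕ} (A : Matrix (Fin p) (Fin p) (Lim k)) (i0 : Fin p)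
    (hr : ∀ j, A i0 j = 0) (hc : ∀ i, A i i0 = 0) : GoodM N A := by
  obtain ⟨i, hi⟩ := exists_ofS_fin k (fun a : Fin p × Fin p => A a.1 a.2)
  obtain ⟨B, hB⟩ := hi (i + 1) (Nat.le_succ i)
  let A' : Matrix (Fin p) (Fin p) (Ext k (St k i)) := fun a b => B (a, b)
  have hA' : ∀ a b, ofE k i (A' a b) = A a b := fun a b => hB (a, b)
  have hinj : Function.Injective (ofE k i) := ofS_inj k (i + 1)
  obtain ⟨e, f, T, h1, h2, h3, h4, h5, h6⟩ := exists_reg (k := k) (R := St k i)
    (stg k (i + 1)).qf A' i0 (fun j => hinj (by rw [hA', hr, map_zero]))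
    (fun j => hinj (by rw [hA', hc, map_zero]))
  obtain ⟨t, c, b, hb1, hb2⟩ := lim_reg k (i := i + 1) (A' + e * T * f) h5 h6
  have hAm : A'.map (ofE k i) = A := by ext a b; exact hA' a b
  refine good_of_kernel A (e.map (ofE k i)) (f.map (ofE k i)) (T.map (ofE k i)) ?_ ?_ ?_ ?_ ?_
  · rw [← hAm, ← Matrix.map_mul, h1]; ext; simp
  · rw [← Matrix.map_mul, h2]
  · rw [← hAm, ← Matrix.map_mul, h3]; ext; simp
  · rw [← Matrix.map_mul, h4]
  · have hm : A + e.map (ofE k i) * T.map (ofE k i) * f.map (ofE k i) =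
        (A' + e * T * f).map (ofE k i) := by
      rw [← hAm, Matrix.map_add _ (map_add _), Matrix.map_mul, Matrix.map_mul]
    rw [hm]
    exact good_of_rel hN _ t c b hb1 hb2

theorem lim_good {M : Type*} [AddCommGroup M] [Module (Lim k)ᵐᵒᵖ M]
    {N : Submodule (Lim k)ᵐᵒᵖ M}
    (hN : ∀ (r : Lim k) (x : M), MulOpposite.op r • x ∈ N →
      ∃ y ∈ N, MulOpposite.op r • y = MulOpposite.op r • x)
    {n m : ℕ} (A : Matrix (Fin n) (Fin m) (Lim k)) : GoodM N A := by
  intro x hx
  let I := Option (Fin n ⊕ Fin m)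
  let q : I ≃ Fin (Fintype.card I) := Fintype.equivFin I
  let A1 : Matrix I I (Lim k) := fun a b =>
    match a, b with
    | some (.inl i), some (.inr j) => A i j
    | _, _ => 0
  let A2 : Matrix (Fin (Fintype.card I)) (Fin (Fintype.card I)) (Lim k) :=
    fun a b => A1 (q.symm a) (q.symm b)
  have hg := lim_good_sq k hN A2 (q none) (by intro j; simp [A2, A1]) (by
    intro i
    simp only [A2, Equiv.symm_apply_apply]
    rcases q.symm i with _ | _ | _ <;> rfl)
  have hsum : ∀ (z : Fin (Fintype.card I) → M) (b : I),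
      vm z A2 (q b) = ∑ a : I, MulOpposite.op (A1 a b) • z (q a) := by
    intro z b
    rw [vm_apply, ← q.sum_comp]
    simp only [A2, Equiv.symm_apply_apply]
  have hsum2 : ∀ (z : Fin (Fintype.card I) → M) (j : Fin m),
      vm z A2 (q (some (.inr j))) = vm (fun i => z (q (some (.inl i)))) A j := by
    intro z j
    rw [hsum, Fintype.sum_option, Fintype.sum_sum_type, vm_apply]
    simp [A1]
  have hsum3 : ∀ (z : Fin (Fintype.card I) → M) (b : I), (∀ j, b ≠ some (.inr j)) →
      vm z A2 (q b) = 0 := by
    intro z b hb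
    rw [hsum]
    refine Finset.sum_eq_zero fun a _ => ?_
    rcases b with _ | j | j
    · rcases a with _ | _ | _ <;> simp [A1]
    · rcases a with _ | _ | _ <;> simp [A1]
    · exact absurd rfl (hb j)
  let x' : Fin (Fintype.card I) → M := fun a =>
    match q.symm a with
    | some (.inl i) => x i
    | _ => 0
  have hx' : (fun i => x' (q (some (.inl i)))) = x := by
    ext i
    simp [x']
  obtain ⟨y, hy1, hy2⟩ := hg x' (by
    intro j
    obtain ⟨b, rfl⟩ := q.surjective j
    by_cases hb : ∃ j, b = some (.inr j)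
    · obtain ⟨j, rfl⟩ := hb
      rw [hsum2, hx']
      exact hx j
    · rw [hsum3]
      · exact N.zero_mem
      · intro j hj; exact hb ⟨j, hj⟩)
  refine ⟨fun i => y (q (some (.inl i))), fun i => hy1 _, ?_⟩
  ext j
  rw [← hsum2, hy2, hsum2, hx']

end

end Pool.Agent.RDO
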