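import Pool.Agent.RDO.Ext

/-!
# Normal forms in the extension ring
-/

namespace Pool.Agent.RDO

open Matrix
open Finsupp (single lsingle)

/-- Forbidden adjacent pairs of variables. -/
inductive Forb {R : Type} [Ring R] : Var R → Var R → Prop
  | tb (l : RegMat R) (i : Fin l.n) (j : Option (Fin l.n)) : Forb (.t l i) (.b l none j)
  | bc (l : RegMat R) (i : Option (Fin l.m)) (j : Fin l.m) : Forb (.b l i none) (.c l j)

/-- words -/
abbrev Wd (R B : Type) [Ring R] : Type := List (Var R × B)

/-- the representation space -/
abbrev VV (R B : Type) [Ring R] : Type := Wd R B →₀ R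

section

variable {k R B : Type} [Field k] [Ring R] [Algebra k R] (Bs : Module.Basis B k R) (b0 : B)

/-- put the letter x and then the coefficient r in front of the word w -/
noncomputable def app (x : Var R) (w : Wd R B) : R →ₗ[k] VV R B :=
  Bs.constr k (fun b => single ((x, b) :: w) (1 : R))

@[simp] theorem app_basis (x : Var R) (w : Wd R B) (b : B) :
    app Bs x w (Bs b) = single ((x, b) :: w) 1 := by
  simp [app]

/-- multiplication by r on the representation space -/
noncomputable def lm (k : Type) {R B : Type} [Field k] [Ring R] [Algebra k R] :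
    R →ₐ[k] Module.End k (VV R B) := Algebra.lsmul k k (VV R B)

@[simp] theorem lm_apply (r : R) (v : VV R B) : lm k r v = r • v := rfl

open Classical in
/-- right hand sides of the reductions -/
noncomputable def redL : Var R → Var R → Wd R B → (R →ₗ[k] VV R B)
  | .t l i, .b l' i' j, w => if h : l = l' ∧ i' = none then
      (if j = some (h.1 ▸ i) then lsingle w else 0) -
        ∑ p, lm k (l'.α (h.1 ▸ i) p) ∘ₗ app Bs (.b l' (some p) j) w
      else 0
  | .b l i j, .c l' j', w => if h : l = l' ∧ j = none then
      (if (h.1 ▸ i) = some j' then lsingle w else 0) -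
        ∑ p, app Bs (.b l' (h.1 ▸ i) (some p)) w ∘ₗ LinearMap.mulLeft k (l'.α p j')
      else 0
  | _, _, _ => 0

theorem redL_tb (l : RegMat R) (i : Fin l.n) (j : Option (Fin l.n)) (w : Wd R B) :
    redL Bs (.t l i) (.b l none j) w = (if j = some i then lsingle w else 0) -
        ∑ p, lm k (l.α i p) ∘ₗ app Bs (.b l (some p) j) w := by
  rw [redL, dif_pos ⟨rfl, rfl⟩]

theorem redL_bc (l : RegMat R) (i : Option (Fin l.m)) (j : Fin l.m) (w : Wd R B) :
    redL Bs (.b l i none) (.c l j) w = (if i = some j then lsingle w else 0) -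
        ∑ p, app Bs (.b l i (some p)) w ∘ₗ LinearMap.mulLeft k (l.α p j) := by
  rw [redL, dif_pos ⟨rfl, rfl⟩]

open Classical in
/-- correction term -/
noncomputable def delta (x : Var R) : Wd R B → VV R B
  | [] => 0
  | (y, b) :: w => if Forb x y then redL Bs x y w (Bs b) - single ((x, b0) :: (y, b) :: w) 1 else 0

/-- action of a variable -/
noncomputable def opX (x : Var R) : Module.End k (VV R B) :=
  Finsupp.lsum k (fun w => app Bs x w + (Bs.coord b0).smulRight (delta Bs b0 x w))

theorem opX_single (x : Var R) (w : Wd R B) (r : R) :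
    opX Bs b0 x (single w r) = app Bs x w r + Bs.repr r b0 • delta Bs b0 x w := by
  simp [opX]

variable (hb : Bs b0 = 1)
include hb

theorem repr_one : Bs.repr 1 b0 = 1 := by
  rw [← hb]; simp

theorem app_one (x : Var R) (w : Wd R B) : app Bs x w 1 = single ((x, b0) :: w) 1 := by
  rw [← hb, app_basis, hb]

theorem opX_app {x y : Var R} (h : Forb x y) (w : Wd R B) (r : R) :
    opX Bs b0 x (app Bs y w r) = redL Bs x y w r := by
  have : opX Bs b0 x ∘ₗ app Bs y w = redL Bs x y w := by
    apply Bs.ext
    intro b
    simp only [LinearMap.comp_apply, app_basis]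
    rw [opX_single, app_one Bs b0 hb, repr_one Bs b0 hb, one_smul, delta, if_pos h]
    abel
  rw [← this]; rfl

omit hb in
theorem delta_c (l : RegMat R) (j : Fin l.m) (w : Wd R B) : delta Bs b0 (.c l j) w = 0 := by
  cases w with
  | nil => rfl
  | cons a w =>
    rw [delta, if_neg]
    rintro ⟨⟩

omit hb in
theorem delta_b_some (l : RegMat R) (i : Option (Fin l.m)) (j : Fin l.n) (w : Wd R B) :
    delta Bs b0 (.b l i (some j)) w = 0 := by
  cases w with
  | nil => rfl
  | cons a w =>
    rw [delta, if_neg]
    rintro ⟨⟩

theorem act_rel2 (l : RegMat R) (i : Option (Fin l.m)) (j : Fin l.m) :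
    ∑ p, opX Bs b0 (.b l i (some p)) * lm k (l.α p j) + opX Bs b0 (.b l i none) * opX Bs b0 (.c l j)
      = if i = some j then 1 else 0 := by
  apply Finsupp.lhom_ext
  intro w r
  simp only [LinearMap.add_apply, LinearMap.sum_apply, Module.End.mul_apply]
  rw [opX_single Bs b0 (.c l j), delta_c Bs b0, smul_zero, add_zero,
    opX_app Bs b0 hb (Forb.bc l i j), redL_bc]
  have h1 : ∀ p : Fin l.n, opX Bs b0 (.b l i (some p)) (lm k (l.α p j) (single w r)) =
      app Bs (.b l i (some p)) w (l.α p j * r) := by
    intro p
    rw [lm_apply, Finsupp.smul_single, opX_single, delta_b_some Bs b0, smul_zero,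
      add_zero, smul_eq_mul]
  simp only [h1]
  by_cases h : i = some j
  · simp [h]
  · simp [h]

theorem claimD (l : RegMat R) (i : Fin l.n) (j : Option (Fin l.n)) (w : Wd R B) :
    ∑ p, l.α i p • delta Bs b0 (.b l (some p) j) w +
      opX Bs b0 (.t l i) (delta Bs b0 (.b l none j) w) = 0 := by
  cases w with
  | nil => simp [delta]
  | cons a w =>
    obtain ⟨y, b⟩ := a
    cases j with
    | some j => simp [delta_b_some Bs b0]
    | none =>
      by_cases hy : ∃ j', y = .c l j'
      · obtain ⟨j', rfl⟩ := hy
        have hd : ∀ i' : Option (Fin l.m), delta Bs b0 (.b l i' none) ((.c l j', b) :: w) =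
            redL Bs (.b l i' none) (.c l j') w (Bs b) -
              single ((.b l i' none, b0) :: (.c l j', b) :: w) 1 := by
          intro i'
          rw [delta, if_pos (Forb.bc l i' j')]
        have hs : opX Bs b0 (.t l i) (single ((.b l none none, b0) :: (.c l j', b) :: w) 1) =
            - ∑ p, l.α i p • single ((.b l (some p) none, b0) :: (.c l j', b) :: w) (1 : R) := by
          rw [← app_one Bs b0 hb, opX_app Bs b0 hb (Forb.tb l i none), redL_tb]
          simp [app_one Bs b0 hb]
        have hr : ∀ r : R, opX Bs b0 (.t l i) (redL Bs (.b l none none) (.c l j') w r) =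
            - (single w (l.α i j' * r) - ∑ q, ∑ p, l.α i p • app Bs (.b l (some p) (some q)) w (l.α q j' * r)) := by
          intro r
          rw [redL_bc]
          simp only [reduceCtorEq, if_false, LinearMap.sub_apply, LinearMap.zero_apply, zero_sub,
            map_neg, LinearMap.sum_apply, LinearMap.comp_apply, map_sum, LinearMap.mulLeft_apply]
          congr 1
          simp only [opX_app Bs b0 hb (Forb.tb l i _), redL_tb, LinearMap.sub_apply,
            LinearMap.sum_apply, LinearMap.comp_apply, lm_apply, Finset.sum_sub_distrib]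
          congr 1
          have : ∀ q : Fin l.n, (if some q = some i then (lsingle w : R →ₗ[k] VV R B) else 0) (l.α q j' * r)
              = if q = i then single w (l.α i j' * r) else 0 := by
            intro q
            by_cases h : q = i
            · simp [h]
            · simp [h]
          simp only [this]
          simp
        simp only [hd]
        rw [map_sub, hs, hr]
        simp only [redL_bc, smul_sub, Finset.sum_sub_distrib, LinearMap.sub_apply,
            LinearMap.sum_apply, LinearMap.comp_apply, LinearMap.mulLeft_apply, Finset.smul_sum]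
        have : ∀ q : Fin l.m, l.α i q • (if some q = some j' then (lsingle w : R →ₗ[k] VV R B) else 0) (Bs b)
              = if q = j' then single w (l.α i j' * Bs b) else 0 := by
            intro q
            by_cases h : q = j'
            · simp [h]
            · simp [h]
        simp only [this]
        rw [Finset.sum_comm]
        simp
      · have hd : ∀ i' : Option (Fin l.m), delta Bs b0 (.b l i' none) ((y, b) :: w) = 0 := by
          intro i'
          rw [delta, if_neg]
          rintro ⟨⟩
          exact hy ⟨_, rfl⟩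
        simp [hd]

theorem act_rel1 (l : RegMat R) (i : Fin l.n) (j : Option (Fin l.n)) :
    ∑ p, lm k (l.α i p) * opX Bs b0 (.b l (some p) j) + opX Bs b0 (.t l i) * opX Bs b0 (.b l none j)
      = if j = some i then 1 else 0 := by
  apply Finsupp.lhom_ext
  intro w r
  simp only [LinearMap.add_apply, LinearMap.sum_apply, Module.End.mul_apply]
  simp only [opX_single, map_add, map_smul]
  rw [opX_app Bs b0 hb (Forb.tb l i j), redL_tb]
  have hD := claimD Bs b0 hb l i j w
  have hD' : opX Bs b0 (.t l i) (delta Bs b0 (.b l none j) w) =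
    - ∑ p, l.α i p • delta Bs b0 (.b l (some p) j) w := by
    rw [eq_neg_iff_add_eq_zero, add_comm]; exact hD
  rw [hD']
  simp only [Finset.sum_add_distrib, lm_apply, LinearMap.sub_apply, LinearMap.sum_apply,
    LinearMap.comp_apply, smul_neg, Finset.smul_sum]
  by_cases h : j = some i
  · simp only [h, if_true]
    simp only [Finsupp.lsingle_apply, Module.End.one_apply]
    simp only [smul_comm (Bs.repr r b0) (l.α i _)]
    abel
  · simp only [h, if_false]
    simp only [LinearMap.zero_apply]
    simp only [smul_comm (Bs.repr r b0) (l.α i _)]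
    abel

/-- the representation -/
noncomputable def rho : Ext k R →ₐ[k] Module.End k (VV R B) :=
  liftE (lm k) (opX Bs b0) (act_rel1 Bs b0 hb) (act_rel2 Bs b0 hb)

@[simp] theorem rho_ιR (r : R) (v : VV R B) : rho Bs b0 hb (ιR k R r) v = r • v := by
  simp [rho]

@[simp] theorem rho_ιX (x : Var R) (v : VV R B) : rho Bs b0 hb (ιX k R x) v = opX Bs b0 x v := by
  simp [rho]

/-- normal form -/
noncomputable def nf : Ext k R →ₗ[k] VV R B where
  toFun f := rho Bs b0 hb f (single [] 1)
  map_add' f g := by rw [map_add]; rfl
  map_smul' c f := by rw [map_smul]; rfl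

theorem nf_def (f : Ext k R) : nf Bs b0 hb f = rho Bs b0 hb f (single [] 1) := rfl

theorem nf_mul (f g : Ext k R) : nf Bs b0 hb (f * g) = rho Bs b0 hb f (nf Bs b0 hb g) := by
  rw [nf_def, map_mul]; rfl

theorem nf_ιR (r : R) : nf Bs b0 hb (ιR k R r) = single [] r := by
  rw [nf_def, rho_ιR]; simp

theorem nf_ιR_mul (r : R) (f : Ext k R) : nf Bs b0 hb (ιR k R r * f) = r • nf Bs b0 hb f := by
  rw [nf_mul, rho_ιR]

theorem nf_ιX_mul (x : Var R) (f : Ext k R) :
    nf Bs b0 hb (ιX k R x * f) = opX Bs b0 x (nf Bs b0 hb f) := by
  rw [nf_mul, rho_ιX]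

omit hb in
/-- value of a word -/
noncomputable def wd : Wd R B → Ext k R
  | [] => 1
  | (x, b) :: w => ιX k R x * ιR k R (Bs b) * wd w

omit hb in
theorem wd_append (w w' : Wd R B) : wd Bs (w ++ w') = wd Bs w * wd Bs w' := by
  induction w with
  | nil => simp [wd]
  | cons a w ih =>
    obtain ⟨x, b⟩ := a
    simp only [List.cons_append, wd, ih, mul_assoc]

omit hb in
/-- the inverse of the normal form -/
noncomputable def sg : VV R B →ₗ[k] Ext k R :=
  Finsupp.lsum k (fun w => LinearMap.mulRight k (wd Bs w) ∘ₗ (ιR k R).toLinearMap)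

omit hb in
@[simp] theorem sg_single (w : Wd R B) (r : R) : sg Bs (single w r) = ιR k R r * wd Bs w := by
  simp [sg]

omit hb in
theorem sg_smul (r : R) (v : VV R B) : sg Bs (r • v) = ιR k R r * sg Bs v := by
  induction v using Finsupp.induction_linear with
  | zero => simp
  | add v w hv hw => rw [smul_add, map_add, map_add, hv, hw, mul_add]
  | single w s => rw [Finsupp.smul_single, sg_single, sg_single, smul_eq_mul, map_mul, mul_assoc]

omit hb in
theorem sg_app (x : Var R) (w : Wd R B) (r : R) :
    sg Bs (app Bs x w r) = ιX k R x * ιR k R r * wd Bs w := by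
  have : sg Bs ∘ₗ app Bs x w =
      LinearMap.mulRight k (wd Bs w) ∘ₗ LinearMap.mulLeft k (ιX k R x) ∘ₗ (ιR k R).toLinearMap := by
    apply Bs.ext
    intro b
    simp [wd]
  exact LinearMap.congr_fun this r

omit hb in
theorem sg_redL {x y : Var R} (h : Forb x y) (w : Wd R B) (r : R) :
    sg Bs (redL Bs x y w r) = ιX k R x * (ιX k R y * ιR k R r * wd Bs w) := by
  cases h with
  | tb l i j =>
    rw [redL_tb]
    simp only [LinearMap.sub_apply, LinearMap.sum_apply, LinearMap.comp_apply, lm_apply, map_sub,
      map_sum, sg_smul, sg_app]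
    have h1 := rel1 k l i j
    have h2 : ιX k R (.t l i) * ιX k R (.b l none j) =
      (if j = some i then 1 else 0) - ∑ p, ιR k R (l.α i p) * ιX k R (.b l (some p) j) := by
      rw [← h1]; abel
    rw [← mul_assoc, ← mul_assoc, h2, sub_mul, sub_mul, Finset.sum_mul, Finset.sum_mul]
    congr 1
    · by_cases hj : j = some i
      · simp [hj]
      · simp [hj]
    · simp only [mul_assoc]
  | bc l i j =>
    rw [redL_bc]
    simp only [LinearMap.sub_apply, LinearMap.sum_apply, LinearMap.comp_apply, map_sub,
      map_sum, sg_app, LinearMap.mulLeft_apply]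
    have h1 := rel2 k l i j
    have h2 : ιX k R (.b l i none) * ιX k R (.c l j) =
      (if i = some j then 1 else 0) - ∑ p, ιX k R (.b l i (some p)) * ιR k R (l.α p j) := by
      rw [← h1]; abel
    rw [← mul_assoc, ← mul_assoc, h2, sub_mul, sub_mul, Finset.sum_mul, Finset.sum_mul]
    congr 1
    · by_cases hj : i = some j
      · simp [hj]
      · simp [hj]
    · simp only [mul_assoc, map_mul]

theorem sg_delta (x : Var R) (w : Wd R B) : sg Bs (delta Bs b0 x w) = 0 := by
  cases w with
  | nil => simp [delta]
  | cons a w =>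
    obtain ⟨y, b⟩ := a
    rw [delta]
    split_ifs with h
    · rw [map_sub, sg_redL Bs h, sg_single]
      simp [wd, hb]
    · simp

theorem sg_opX (x : Var R) (v : VV R B) : sg Bs (opX Bs b0 x v) = ιX k R x * sg Bs v := by
  induction v using Finsupp.induction_linear with
  | zero => simp
  | add v w hv hw => rw [map_add, map_add, map_add, hv, hw, mul_add]
  | single w s =>
    rw [opX_single, map_add, map_smul, sg_delta Bs b0 hb, smul_zero, add_zero, sg_app, sg_single,
      mul_assoc]

theorem sg_rho (f : Ext k R) (v : VV R B) : sg Bs (rho Bs b0 hb f v) = f * sg Bs v := by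
  induction f using Ext.induction generalizing v with
  | hR r => rw [rho_ιR, sg_smul]
  | hX x => rw [rho_ιX, sg_opX Bs b0 hb]
  | hadd f g hf hg => rw [map_add, LinearMap.add_apply, map_add, hf, hg, add_mul]
  | hmul f g hf hg => rw [map_mul, Module.End.mul_apply, hf, hg, mul_assoc]

theorem sg_nf (f : Ext k R) : sg Bs (nf Bs b0 hb f) = f := by
  rw [nf_def, sg_rho]
  simp [wd]

theorem nf_injective : Function.Injective (nf Bs b0 hb) :=
  Function.LeftInverse.injective (sg_nf Bs b0 hb)

end

end Pool.Agent.RDO
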