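import Pool.Agent.RDO.NF

/-!
# Normal words, supports and lengths
-/

namespace Pool.Agent.RDO

open Matrix
open Finsupp (single lsingle)

section

variable {k R B : Type} [Field k] [Ring R] [Algebra k R] (Bs : Module.Basis B k R) (b0 : B)

/-- adjacency condition -/
def Adj (a a' : Var R × B) : Prop := ¬ (a.2 = b0 ∧ Forb a.1 a'.1)

/-- normal words -/
def Nrm (w : Wd R B) : Prop := List.IsChain (Adj b0) w

theorem Nrm.tail {a : Var R × B} {w : Wd R B} (h : Nrm b0 (a :: w)) : Nrm b0 w :=
  List.IsChain.tail h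

theorem nrm_cons {x : Var R} {b : B} {w : Wd R B} :
    Nrm b0 ((x, b) :: w) ↔ Nrm b0 w ∧ ∀ a ∈ w.head?, Adj b0 (x, b) a := by
  unfold Nrm
  cases w with
  | nil => simp
  | cons a w => simp [List.isChain_cons_cons, and_comm]

/-- the span of normal words -/
def NSub : Submodule R (VV R B) := Finsupp.supported R R {w | Nrm b0 w}

theorem mem_NSub {v : VV R B} : v ∈ NSub b0 ↔ ∀ w, ¬ Nrm b0 w → v w = 0 := by
  unfold NSub
  rw [Finsupp.mem_supported']
  rfl

theorem single_mem_NSub {w : Wd R B} (h : Nrm b0 w) (r : R) : single w r ∈ NSub b0 :=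
  Finsupp.single_mem_supported R r h

/-- words of length less than p -/
def Lt (p : ℕ) : Submodule R (VV R B) := Finsupp.supported R R {w | w.length < p}

theorem mem_Lt {p : ℕ} {v : VV R B} : v ∈ Lt p ↔ ∀ w : Wd R B, p ≤ w.length → v w = 0 := by
  unfold Lt
  rw [Finsupp.mem_supported']
  simp

theorem Lt_mono {p q : ℕ} (h : p ≤ q) : (Lt p : Submodule R (VV R B)) ≤ Lt q :=
  Finsupp.supported_mono (fun _ hw => lt_of_lt_of_le hw h)

theorem single_mem_Lt {w : Wd R B} {p : ℕ} (h : w.length < p) (r : R) : single w r ∈ Lt p :=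
  Finsupp.single_mem_supported R r h

omit b0 in
/-- closure principle for `app` -/
theorem app_mem (N : Submodule R (VV R B)) (x : Var R) (w : Wd R B)
    (h : ∀ b, single ((x, b) :: w) 1 ∈ N) (r : R) : app Bs x w r ∈ N := by
  have hr := Bs.mem_span r
  induction hr using Submodule.span_induction with
  | mem y hy =>
    obtain ⟨b, rfl⟩ := hy
    rw [app_basis]; exact h b
  | zero => rw [map_zero]; exact N.zero_mem
  | add y z _ _ hy hz => rw [map_add]; exact N.add_mem hy hz
  | smul c y _ hy =>
    rw [map_smul, algebra_compatible_smul R c]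
    exact N.smul_mem _ hy

omit b0 in
open Classical in
theorem app_apply (x : Var R) (w : Wd R B) (r : R) (y : Var R) (b : B) (w' : Wd R B) :
    app Bs x w r ((y, b) :: w') = if y = x ∧ w' = w then algebraMap k R (Bs.repr r b) else 0 := by
  by_cases h : y = x ∧ w' = w
  · obtain ⟨rfl, rfl⟩ := h
    rw [if_pos ⟨rfl, rfl⟩]
    have : Finsupp.lapply ((y, b) :: w') ∘ₗ app Bs y w' = Algebra.linearMap k R ∘ₗ Bs.coord b := by
      apply Bs.ext
      intro b'
      simp only [LinearMap.comp_apply, app_basis, Finsupp.lapply_apply, Module.Basis.coord_apply,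
        Module.Basis.repr_self, Algebra.linearMap_apply]
      rw [Finsupp.single_apply, Finsupp.single_apply]
      by_cases hbb : b' = b
      · simp [hbb]
      · simp [hbb]
    exact LinearMap.congr_fun this r
  · rw [if_neg h]
    have : Finsupp.lapply ((y, b) :: w') ∘ₗ app Bs x w = (0 : R →ₗ[k] R) := by
      apply Bs.ext
      intro b'
      simp only [LinearMap.comp_apply, app_basis, Finsupp.lapply_apply, LinearMap.zero_apply]
      rw [Finsupp.single_apply, if_neg]
      intro h'
      rw [List.cons.injEq, Prod.mk.injEq] at h'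
      exact h ⟨h'.1.1.symm, h'.2.symm⟩
    exact LinearMap.congr_fun this r

omit b0 in
theorem app_apply_nil (x : Var R) (w : Wd R B) (r : R) : app Bs x w r [] = 0 := by
  have : Finsupp.lapply ([] : Wd R B) ∘ₗ app Bs x w = (0 : R →ₗ[k] R) := by
    apply Bs.ext
    intro b'
    simp only [LinearMap.comp_apply, app_basis, Finsupp.lapply_apply, LinearMap.zero_apply]
    rw [Finsupp.single_apply, if_neg]
    simp
  exact LinearMap.congr_fun this r

omit b0 in
theorem redL_mem_Lt {x y : Var R} (h : Forb x y) (w : Wd R B) (r : R) :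
    redL Bs x y w r ∈ (Lt (w.length + 2) : Submodule R (VV R B)) := by
  cases h with
  | tb l i j =>
    rw [redL_tb]
    simp only [LinearMap.sub_apply, LinearMap.sum_apply, LinearMap.comp_apply, lm_apply]
    refine Submodule.sub_mem _ ?_ (Submodule.sum_mem _ fun p _ => Submodule.smul_mem _ _ ?_)
    · by_cases hj : j = some i
      · rw [if_pos hj, Finsupp.lsingle_apply]
        exact single_mem_Lt (by omega) _
      · rw [if_neg hj]; exact Submodule.zero_mem _
    · exact app_mem Bs _ _ _ (fun b => single_mem_Lt (by simp) _) _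
  | bc l i j =>
    rw [redL_bc]
    simp only [LinearMap.sub_apply, LinearMap.sum_apply, LinearMap.comp_apply]
    refine Submodule.sub_mem _ ?_ (Submodule.sum_mem _ fun p _ => ?_)
    · by_cases hj : i = some j
      · rw [if_pos hj, Finsupp.lsingle_apply]
        exact single_mem_Lt (by omega) _
      · rw [if_neg hj]; exact Submodule.zero_mem _
    · exact app_mem Bs _ _ _ (fun b => single_mem_Lt (by simp) _) _

theorem Adj_b {l : RegMat R} {i i' : Option (Fin l.m)} {j : Option (Fin l.n)} {b : B}
    {a : Var R × B} (h : Adj b0 (.b l i j, b) a) : Adj b0 (.b l i' j, b) a := by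
  rintro ⟨h1, h2⟩
  apply h
  refine ⟨h1, ?_⟩
  obtain ⟨y, b'⟩ := a
  simp only at h2 ⊢
  cases h2
  exact Forb.bc _ _ _

theorem redL_mem_NSub {x y : Var R} (h : Forb x y) (w : Wd R B) (b : B)
    (hn : Nrm b0 ((y, b) :: w)) : redL Bs x y w (Bs b) ∈ NSub b0 := by
  have hw := hn.tail b0
  cases h with
  | tb l i j =>
    rw [redL_tb]
    simp only [LinearMap.sub_apply, LinearMap.sum_apply, LinearMap.comp_apply, lm_apply]
    refine Submodule.sub_mem _ ?_ (Submodule.sum_mem _ fun p _ => Submodule.smul_mem _ _ ?_)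
    · by_cases hj : j = some i
      · rw [if_pos hj, Finsupp.lsingle_apply]
        exact single_mem_NSub b0 hw _
      · rw [if_neg hj]; exact Submodule.zero_mem _
    · rw [app_basis]
      apply single_mem_NSub b0
      rw [nrm_cons] at hn ⊢
      exact ⟨hw, fun a ha => Adj_b b0 (hn.2 a ha)⟩
  | bc l i j =>
    rw [redL_bc]
    simp only [LinearMap.sub_apply, LinearMap.sum_apply, LinearMap.comp_apply]
    refine Submodule.sub_mem _ ?_ (Submodule.sum_mem _ fun p _ => ?_)
    · by_cases hj : i = some j
      · rw [if_pos hj, Finsupp.lsingle_apply]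
        exact single_mem_NSub b0 hw _
      · rw [if_neg hj]; exact Submodule.zero_mem _
    · apply app_mem Bs
      intro b'
      apply single_mem_NSub b0
      rw [nrm_cons]
      refine ⟨hw, fun a ha => ?_⟩
      rintro ⟨_, h2⟩
      simp only at h2
      cases h2

theorem delta_eq_zero {x : Var R} {w : Wd R B} (h : ∀ a ∈ w.head?, ¬ Forb x a.1) :
    delta Bs b0 x w = 0 := by
  cases w with
  | nil => rfl
  | cons a w =>
    obtain ⟨y, b⟩ := a
    rw [delta, if_neg]
    exact h (y, b) (by simp)

theorem delta_forb {x y : Var R} {b : B} {w : Wd R B} (h : Forb x y) :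
    delta Bs b0 x ((y, b) :: w) = redL Bs x y w (Bs b) - single ((x, b0) :: (y, b) :: w) 1 := by
  rw [delta, if_pos h]

/-- either nothing is forbidden in front, or the head is forbidden -/
theorem head_cases (x : Var R) (w : Wd R B) :
    (∀ a ∈ w.head?, ¬ Forb x a.1) ∨ ∃ y b w', w = (y, b) :: w' ∧ Forb x y := by
  cases w with
  | nil => left; simp
  | cons a w =>
    obtain ⟨y, b⟩ := a
    by_cases h : Forb x y
    · right; exact ⟨y, b, w, rfl, h⟩
    · left; simpa using h

variable (hb : Bs b0 = 1)
include hb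

theorem opX_single_mem_NSub (x : Var R) {w : Wd R B} (hw : Nrm b0 w) (r : R) :
    opX Bs b0 x (single w r) ∈ NSub b0 := by
  rw [opX_single]
  rcases head_cases x w with h | ⟨y, b, w', rfl, h⟩
  · rw [delta_eq_zero Bs b0 h, smul_zero, add_zero]
    apply app_mem Bs
    intro b
    apply single_mem_NSub b0
    rw [nrm_cons]
    exact ⟨hw, fun a ha hf => h a ha hf.2⟩
  · rw [delta_forb Bs b0 h]
    have hr := Bs.mem_span r
    induction hr using Submodule.span_induction with
    | mem z hz =>
      obtain ⟨b', rfl⟩ := hz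
      rw [app_basis, Module.Basis.repr_self, smul_sub]
      have hred := redL_mem_NSub Bs b0 h w' b hw
      by_cases hbb : b' = b0
      · subst hbb
        simp only [Finsupp.single_eq_same, one_smul]
        convert hred using 1
        abel
      · rw [Finsupp.single_eq_of_ne (Ne.symm hbb)]
        simp only [zero_smul, sub_zero, add_zero]
        apply single_mem_NSub b0
        rw [nrm_cons]
        exact ⟨hw, fun a ha hf => hbb hf.1⟩
    | zero => simp
    | add u v _ _ hu hv =>
      rw [map_add, map_add, Finsupp.add_apply, add_smul]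
      have := Submodule.add_mem _ hu hv
      convert this using 1
      abel
    | smul c u _ hu =>
      rw [map_smul, map_smul, Finsupp.smul_apply, smul_assoc, ← smul_add,
        algebra_compatible_smul R c]
      exact Submodule.smul_mem _ _ hu

theorem opX_mem_NSub (x : Var R) {v : VV R B} (hv : v ∈ NSub b0) : opX Bs b0 x v ∈ NSub b0 := by
  rw [← Finsupp.sum_single v, map_finsuppSum]
  refine Submodule.sum_mem _ fun w hw => ?_
  apply opX_single_mem_NSub Bs b0 hb
  by_contra h
  exact (Finsupp.mem_support_iff.1 hw) ((mem_NSub b0).1 hv w h)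

theorem rho_mem_NSub (f : Ext k R) {v : VV R B} (hv : v ∈ NSub b0) :
    rho Bs b0 hb f v ∈ NSub b0 := by
  induction f using Ext.induction generalizing v with
  | hR r => rw [rho_ιR]; exact Submodule.smul_mem _ _ hv
  | hX x => rw [rho_ιX]; exact opX_mem_NSub Bs b0 hb x hv
  | hadd f g hf hg => rw [map_add, LinearMap.add_apply]; exact Submodule.add_mem _ (hf hv) (hg hv)
  | hmul f g hf hg => rw [map_mul, Module.End.mul_apply]; exact hf (hg hv)

theorem nf_mem_NSub (f : Ext k R) : nf Bs b0 hb f ∈ NSub b0 := by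
  rw [nf_def]
  exact rho_mem_NSub Bs b0 hb f (single_mem_NSub b0 List.isChain_nil _)

theorem nf_eq_zero_of_not_nrm (f : Ext k R) {w : Wd R B} (h : ¬ Nrm b0 w) :
    nf Bs b0 hb f w = 0 := (mem_NSub b0).1 (nf_mem_NSub Bs b0 hb f) w h

theorem nrm_of_nf_ne_zero {f : Ext k R} {w : Wd R B} (h : nf Bs b0 hb f w ≠ 0) : Nrm b0 w := by
  by_contra h'
  exact h (nf_eq_zero_of_not_nrm Bs b0 hb f h')

theorem opX_single_basis {x : Var R} {b : B} {w : Wd R B} (h : Nrm b0 ((x, b) :: w)) :
    opX Bs b0 x (single w (Bs b)) = single ((x, b) :: w) 1 := by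
  rw [opX_single, app_basis, Module.Basis.repr_self]
  by_cases hbb : b = b0
  · subst hbb
    rw [delta_eq_zero, smul_zero, add_zero]
    intro a ha hf
    exact (nrm_cons b).1 h |>.2 a ha ⟨rfl, hf⟩
  · rw [Finsupp.single_eq_of_ne (Ne.symm hbb), zero_smul, add_zero]

theorem nf_wd {w : Wd R B} (h : Nrm b0 w) : nf Bs b0 hb (wd Bs w) = single w 1 := by
  induction w with
  | nil => simp [wd, nf_def]
  | cons a w ih =>
    obtain ⟨x, b⟩ := a
    rw [wd, mul_assoc, nf_ιX_mul, nf_ιR_mul, ih (h.tail b0), Finsupp.smul_single, smul_eq_mul,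
      mul_one, opX_single_basis Bs b0 hb h]

theorem nf_sg {v : VV R B} (hv : v ∈ NSub b0) : nf Bs b0 hb (sg Bs v) = v := by
  conv_lhs => rw [← Finsupp.sum_single v, map_finsuppSum, map_finsuppSum]
  conv_rhs => rw [← Finsupp.sum_single v]
  refine Finset.sum_congr rfl fun w hw => ?_
  have : Nrm b0 w := by
    by_contra h
    exact (Finsupp.mem_support_iff.1 hw) ((mem_NSub b0).1 hv w h)
  simp only [sg_single]
  rw [nf_ιR_mul, nf_wd Bs b0 hb this, Finsupp.smul_single, smul_eq_mul, mul_one]

omit hb in
theorem opX_single_mem_Lt (x : Var R) (w : Wd R B) (r : R) :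
    opX Bs b0 x (single w r) ∈ (Lt (w.length + 2) : Submodule R (VV R B)) := by
  rw [opX_single]
  refine Submodule.add_mem _ (app_mem Bs _ _ _ (fun b => single_mem_Lt (by simp) _) _) ?_
  rw [algebra_compatible_smul R]
  apply Submodule.smul_mem
  rcases head_cases x w with h | ⟨y, b, w', rfl, h⟩
  · rw [delta_eq_zero Bs b0 h]; exact Submodule.zero_mem _
  · rw [delta_forb Bs b0 h]
    refine Submodule.sub_mem _ (Lt_mono (by simp) (redL_mem_Lt Bs h w' _)) (single_mem_Lt (by simp) _)

omit hb in
theorem opX_mem_Lt (x : Var R) {v : VV R B} {p : ℕ} (hv : v ∈ Lt (p + 1)) :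
    opX Bs b0 x v ∈ (Lt (p + 2) : Submodule R (VV R B)) := by
  rw [← Finsupp.sum_single v, map_finsuppSum]
  refine Submodule.sum_mem _ fun w hw => ?_
  have : w.length < p + 1 := by
    by_contra h
    exact (Finsupp.mem_support_iff.1 hw) (mem_Lt.1 hv w (by omega))
  exact Lt_mono (by omega) (opX_single_mem_Lt Bs b0 x w _)

end

end Pool.Agent.RDO
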