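import Pool.Agent.RDO.NF2

/-!
# Top coefficients of products
-/

namespace Pool.Agent.RDO

open Matrix
open Finsupp (single lsingle)

section

variable {k R B : Type} [Field k] [Ring R] [Algebra k R] (Bs : Module.Basis B k R) (b0 : B)

open Classical in
theorem opX_single_top {x y : Var R} {b : B} {l w : Wd R B} (hw : w.length ≤ l.length)
    (hn : Nrm b0 ((y, b) :: l)) (r : R) :
    opX Bs b0 x (single w r) ((y, b) :: l) =
      if y = x ∧ l = w then algebraMap k R (Bs.repr r b) else 0 := by
  rw [opX_single, Finsupp.add_apply, app_apply, Finsupp.smul_apply]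
  have : delta Bs b0 x w ((y, b) :: l) = 0 := by
    rcases head_cases x w with h | ⟨y', b', w', rfl, h⟩
    · rw [delta_eq_zero Bs b0 h]; rfl
    · rw [delta_forb Bs b0 h, Finsupp.sub_apply]
      have h1 := redL_mem_Lt Bs h w' (Bs b')
      rw [mem_Lt.1 h1 _ (by simp at hw ⊢; omega), Finsupp.single_apply, if_neg, sub_zero]
      intro h2
      rw [← h2] at hn
      exact ((nrm_cons b0).1 hn).2 (y', b') (by simp) ⟨rfl, h⟩
  rw [this, smul_zero, add_zero]

open Classical in
theorem top_opX {x y : Var R} {b : B} {l : Wd R B} {v : VV R B} (hv : v ∈ Lt (l.length + 1))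
    (hn : Nrm b0 ((y, b) :: l)) :
    opX Bs b0 x v ((y, b) :: l) = if y = x then algebraMap k R (Bs.repr (v l) b) else 0 := by
  conv_lhs => rw [← Finsupp.sum_single v, map_finsuppSum]
  rw [Finsupp.sum, Finsupp.finsetSum_apply]
  have h1 : ∀ w ∈ v.support, opX Bs b0 x (single w (v w)) ((y, b) :: l) =
      if y = x ∧ l = w then algebraMap k R (Bs.repr (v w) b) else 0 := by
    intro w hw
    apply opX_single_top Bs b0 _ hn
    by_contra h
    exact (Finsupp.mem_support_iff.1 hw) (mem_Lt.1 hv w (by omega))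
  rw [Finset.sum_congr rfl h1]
  by_cases hyx : y = x
  · simp only [hyx, true_and, if_true]
    rw [Finset.sum_ite_eq]
    by_cases hl : l ∈ v.support
    · rw [if_pos hl]
    · rw [if_neg hl, Finsupp.notMem_support_iff.1 hl]
      simp
  · simp [hyx]

variable (hb : Bs b0 = 1)
include hb

theorem rho_wd_mem_Lt (w : Wd R B) {v : VV R B} {N : ℕ} (hv : v ∈ Lt (N + 1)) :
    rho Bs b0 hb (wd Bs w) v ∈ (Lt (w.length + N + 1) : Submodule R (VV R B)) := by
  induction w with
  | nil => simpa [wd] using hv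
  | cons a w ih =>
    obtain ⟨x, b⟩ := a
    rw [wd, mul_assoc, map_mul, map_mul, Module.End.mul_apply, Module.End.mul_apply, rho_ιR,
      rho_ιX]
    have := opX_mem_Lt Bs b0 x (Submodule.smul_mem _ (Bs b) ih)
    rw [List.length_cons]
    exact Lt_mono (by omega) this

open Classical in
theorem rho_wd_top (w0 : Wd R B) (x0 : Var R) (b' : B) {v : VV R B} {l2 : Wd R B}
    (hv : v ∈ Lt (l2.length + 1)) (l0 : Wd R B) (hl0 : l0.length = w0.length) (x : Var R) (b : B)
    (hn : Nrm b0 (l0 ++ (x, b) :: l2)) :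
    rho Bs b0 hb (wd Bs (w0 ++ [(x0, b')])) v (l0 ++ (x, b) :: l2) =
      if w0 = l0 ∧ x0 = x then algebraMap k R (Bs.repr (Bs b' * v l2) b) else 0 := by
  induction w0 generalizing l0 with
  | nil =>
    have : l0 = [] := List.length_eq_zero_iff.1 hl0
    subst this
    simp only [List.nil_append, wd, mul_one, true_and]
    rw [map_mul, Module.End.mul_apply, rho_ιR, rho_ιX,
      top_opX Bs b0 (Submodule.smul_mem _ _ hv) hn]
    simp only [Finsupp.smul_apply, smul_eq_mul, eq_comm]
  | cons a w0 ih =>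
    obtain ⟨x1, b1⟩ := a
    cases l0 with
    | nil => simp at hl0
    | cons c l0 =>
      obtain ⟨y1, a1⟩ := c
      have hl0' : l0.length = w0.length := by simpa using hl0
      have hn' : Nrm b0 (l0 ++ (x, b) :: l2) := hn.tail b0
      have ih' := ih l0 hl0' hn'
      simp only [List.cons_append] at hn ⊢
      rw [wd, mul_assoc, map_mul, map_mul, Module.End.mul_apply, Module.End.mul_apply, rho_ιR,
        rho_ιX, top_opX Bs b0 _ hn]
      · rw [Finsupp.smul_apply, smul_eq_mul, ih']
        by_cases h1 : y1 = x1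
        · rw [if_pos h1]
          by_cases h2 : w0 = l0 ∧ x0 = x
          · rw [if_pos h2, ← Algebra.commutes, ← Algebra.smul_def, map_smul, Finsupp.smul_apply,
              Module.Basis.repr_self, smul_eq_mul]
            by_cases h3 : b1 = a1
            · subst h3 h1
              simp [h2]
            · rw [Finsupp.single_eq_of_ne (Ne.symm h3)]
              rw [if_neg]
              · simp
              · rintro ⟨h4, _⟩
                simp only [List.cons.injEq, Prod.mk.injEq] at h4
                exact h3 h4.1.2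
          · rw [if_neg h2, if_neg]
            · simp
            · rintro ⟨h4, h5⟩
              simp only [List.cons.injEq, Prod.mk.injEq] at h4
              exact h2 ⟨h4.2, h5⟩
        · rw [if_neg h1, if_neg]
          rintro ⟨h4, h5⟩
          simp only [List.cons.injEq, Prod.mk.injEq] at h4
          exact h1 h4.1.1.symm
      · have := rho_wd_mem_Lt Bs b0 hb (w0 ++ [(x0, b')]) hv
        apply Submodule.smul_mem
        refine Lt_mono ?_ this
        simp
        omega

omit hb in
omit b0 in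
theorem concat_inj (l0 : Wd R B) (x : Var R) : Function.Injective (fun b : B => l0 ++ [(x, b)]) := by
  intro b b' h
  simpa using h

omit hb in
omit b0 in
/-- right coefficient -/
noncomputable def rcL (a : B) (l0 : Wd R B) (x : Var R) : VV R B →ₗ[k] R where
  toFun v := Bs.repr.symm ((v.comapDomain (fun b => l0 ++ [(x, b)])
    (concat_inj l0 x).injOn).mapRange (fun r => Bs.repr r a) (by simp))
  map_add' u v := by
    rw [← map_add]
    congr 1
    ext b
    simp
  map_smul' c v := by
    rw [RingHom.id_apply, ← map_smul]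
    congr 1
    ext b
    simp

omit hb in
omit b0 in
theorem repr_rcL (a : B) (l0 : Wd R B) (x : Var R) (v : VV R B) (b : B) :
    Bs.repr (rcL Bs a l0 x v) b = Bs.repr (v (l0 ++ [(x, b)])) a := by
  simp [rcL]

omit hb in
omit b0 in
open Classical in
theorem rcL_single (a : B) (l0 : Wd R B) (x : Var R) (w0 : Wd R B) (x0 : Var R) (b' : B) (r : R) :
    rcL Bs a l0 x (single (w0 ++ [(x0, b')]) r) =
      if w0 = l0 ∧ x0 = x then Bs.repr r a • Bs b' else 0 := by
  apply Bs.ext_elem
  intro b
  rw [repr_rcL, Finsupp.single_apply]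
  by_cases h : w0 = l0 ∧ x0 = x
  · obtain ⟨rfl, rfl⟩ := h
    simp only [List.append_cancel_left_eq, List.cons.injEq, Prod.mk.injEq, true_and, and_true,
      and_self, if_true, map_smul, Finsupp.smul_apply, Module.Basis.repr_self, smul_eq_mul]
    rw [Finsupp.single_apply]
    by_cases hb : b' = b
    · simp [hb]
    · simp [hb]
  · rw [if_neg h, if_neg]
    · simp
    · intro h2
      have h3 := List.append_inj' h2 rfl
      simp only [List.cons.injEq, Prod.mk.injEq, and_true] at h3
      exact h ⟨h3.1, h3.2.1⟩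

omit hb in
omit b0 in
theorem rcL_single_ne (a : B) (l0 : Wd R B) (x : Var R) (w : Wd R B) (h : w.length ≠ l0.length + 1)
    (r : R) : rcL Bs a l0 x (single w r) = 0 := by
  classical
  apply Bs.ext_elem
  intro b
  rw [repr_rcL, Finsupp.single_apply, if_neg]
  · simp
  · intro h2
    apply h
    rw [h2]; simp

theorem rho_expand (F : Ext k R) (v : VV R B) :
    rho Bs b0 hb F v = (nf Bs b0 hb F).sum (fun w r => r • rho Bs b0 hb (wd Bs w) v) := by
  conv_lhs => rw [← sg_nf Bs b0 hb F, ← Finsupp.sum_single (nf Bs b0 hb F)]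
  simp only [Finsupp.sum, map_sum, LinearMap.sum_apply, sg_single, map_mul, Module.End.mul_apply,
    rho_ιR]

theorem core_term (w : Wd R B) (r : R) {v : VV R B} {l0 : Wd R B} {x : Var R} {b : B} {l2 : Wd R B}
    (hw : w.length < l0.length + 2) (hv : v ∈ Lt (l2.length + 1))
    (hn : Nrm b0 (l0 ++ (x, b) :: l2)) (a : B) :
    Bs.repr (r * rho Bs b0 hb (wd Bs w) v (l0 ++ (x, b) :: l2)) a =
      Bs.repr (rcL Bs a l0 x (single w r) * v l2) b := by
  classical
  by_cases hlen : w.length = l0.length + 1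
  · obtain ⟨w0, ⟨x0, b'⟩, rfl⟩ : ∃ w0 c, w = w0 ++ [c] := by
      rcases List.eq_nil_or_concat w with rfl | ⟨w0, c, rfl⟩
      · simp at hlen
      · exact ⟨w0, c, by simp⟩
    rw [rho_wd_top Bs b0 hb w0 x0 b' hv l0 (by simpa using hlen.symm) x b hn, rcL_single]
    by_cases h : w0 = l0 ∧ x0 = x
    · rw [if_pos h, if_pos h, ← Algebra.commutes, ← Algebra.smul_def, map_smul, Finsupp.smul_apply,
        smul_mul_assoc, map_smul, Finsupp.smul_apply, smul_eq_mul, smul_eq_mul, mul_comm]
    · rw [if_neg h, if_neg h]; simp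
  · rw [rcL_single_ne Bs a l0 x w hlen, mem_Lt.1 (rho_wd_mem_Lt Bs b0 hb w hv)]
    · simp
    · simp only [List.length_append, List.length_cons]; omega

theorem core (F : Ext k R) {v : VV R B} {l0 : Wd R B} {x : Var R} {b : B} {l2 : Wd R B}
    (hF : nf Bs b0 hb F ∈ Lt (l0.length + 2)) (hv : v ∈ Lt (l2.length + 1))
    (hn : Nrm b0 (l0 ++ (x, b) :: l2)) (a : B) :
    Bs.repr (rho Bs b0 hb F v (l0 ++ (x, b) :: l2)) a =
      Bs.repr (rcL Bs a l0 x (nf Bs b0 hb F) * v l2) b := by
  rw [rho_expand]
  conv_rhs => rw [← Finsupp.sum_single (nf Bs b0 hb F)]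
  simp only [Finsupp.sum, Finsupp.finsetSum_apply, map_sum, Finset.sum_mul]
  refine Finset.sum_congr rfl fun w hw => ?_
  rw [Finsupp.smul_apply, smul_eq_mul]
  apply core_term Bs b0 hb w _ _ hv hn
  by_contra h
  exact (Finsupp.mem_support_iff.1 hw) (mem_Lt.1 hF w (by omega))

theorem nf_Lt_one {F : Ext k R} (hF : nf Bs b0 hb F ∈ Lt 1) :
    F = ιR k R (nf Bs b0 hb F []) := by
  apply nf_injective Bs b0 hb
  rw [nf_ιR]
  ext w
  cases w with
  | nil => simp
  | cons a w => rw [mem_Lt.1 hF _ (by simp)]; simp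

/-- triple products, top coefficients -/
theorem triple [DecidableEq (Var R)] (F G : Ext k R) (z y : Var R) {l1 l2 : Wd R B} {b : B}
    (hF : nf Bs b0 hb F ∈ Lt (l1.length + 1)) (hG : nf Bs b0 hb G ∈ Lt (l2.length + 1))
    (hn : Nrm b0 (l1 ++ (y, b) :: l2)) :
    nf Bs b0 hb (F * ιX k R z * G) (l1 ++ (y, b) :: l2) =
      if y = z then nf Bs b0 hb F l1 * algebraMap k R (Bs.repr (nf Bs b0 hb G l2) b) else 0 := by
  have hn2 : Nrm b0 ((y, b) :: l2) := List.IsChain.right_of_append hn
  rw [mul_assoc, nf_mul, nf_ιX_mul]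
  have hv := opX_mem_Lt Bs b0 z hG
  have htop := top_opX Bs b0 (x := z) hG hn2
  rcases List.eq_nil_or_concat l1 with rfl | ⟨l0, ⟨x, b1⟩, rfl⟩
  · have h1 := nf_Lt_one Bs b0 hb (by simpa using hF)
    conv_lhs => rw [h1]
    rw [rho_ιR, Finsupp.smul_apply, smul_eq_mul, List.nil_append, htop]
    by_cases h : y = z
    · simp [h]
    · simp [h]
  · simp only [List.concat_eq_append] at hF hn ⊢
    rw [List.append_assoc] at hn ⊢
    apply Bs.ext_elem
    intro a
    simp only [List.cons_append, List.nil_append] at hn ⊢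
    rw [core Bs b0 hb F (by simpa using hF) (by simpa using hv) hn a, htop]
    by_cases h : y = z
    · rw [if_pos h, if_pos h, ← Algebra.commutes, ← Algebra.commutes, ← Algebra.smul_def,
        ← Algebra.smul_def, map_smul, map_smul, Finsupp.smul_apply, Finsupp.smul_apply, repr_rcL]
    · rw [if_neg h, if_neg h]; simp

omit hb in
omit b0 in
/-- coefficient at the end of a word -/
noncomputable def appe (w : Wd R B) (x : Var R) : R →ₗ[k] VV R B :=
  Bs.constr k (fun b => single (w ++ [(x, b)]) (1 : R))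

omit hb in
omit b0 in
@[simp] theorem appe_basis (w : Wd R B) (x : Var R) (b : B) :
    appe Bs w x (Bs b) = single (w ++ [(x, b)]) 1 := by
  simp [appe]

omit hb Bs in
theorem nrm_concat_iff {w : Wd R B} {x : Var R} {b b' : B} (h : Nrm b0 (w ++ [(x, b)])) :
    Nrm b0 (w ++ [(x, b')]) := by
  induction w with
  | nil => exact List.isChain_singleton _
  | cons a w ih =>
    simp only [List.cons_append] at h ⊢
    obtain ⟨y, c⟩ := a
    rw [nrm_cons] at h ⊢
    refine ⟨ih h.1, ?_⟩
    cases w with
    | nil =>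
      simp only [List.nil_append, List.head?_cons, Option.mem_def, Option.some.injEq,
        forall_eq'] at h ⊢
      exact h.2
    | cons d w => exact h.2

theorem nf_wd_mul_ιR {w : Wd R B} {x : Var R} {b : B} (h : Nrm b0 (w ++ [(x, b)])) (r : R) :
    nf Bs b0 hb (wd Bs w * ιX k R x * ιR k R r) = appe Bs w x r := by
  have : nf Bs b0 hb ∘ₗ LinearMap.mulLeft k (wd Bs w * ιX k R x) ∘ₗ (ιR k R).toLinearMap =
      appe Bs w x := by
    apply Bs.ext
    intro b'
    simp only [LinearMap.comp_apply, LinearMap.mulLeft_apply, AlgHom.toLinearMap_apply, appe_basis]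
    rw [← nf_wd Bs b0 hb (nrm_concat_iff b0 h), wd_append, mul_assoc]
    simp [wd]
  exact LinearMap.congr_fun this r

omit hb in
omit b0 in
open Classical in
theorem rcL_smul_appe (a : B) (l0 : Wd R B) (x : Var R) (w0 : Wd R B) (x0 : Var R) (s r : R) :
    rcL Bs a l0 x (s • appe Bs w0 x0 r) = if w0 = l0 ∧ x0 = x then Bs.repr s a • r else 0 := by
  have : rcL Bs a l0 x ∘ₗ (lm k s : Module.End k (VV R B)) ∘ₗ appe Bs w0 x0 =
      if w0 = l0 ∧ x0 = x then Bs.repr s a • LinearMap.id else 0 := by
    apply Bs.ext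
    intro b'
    simp only [LinearMap.comp_apply, appe_basis, lm_apply, Finsupp.smul_single, smul_eq_mul,
      mul_one]
    rw [rcL_single]
    by_cases h : w0 = l0 ∧ x0 = x
    · simp [h]
    · simp [h]
  have h2 := LinearMap.congr_fun this r
  simp only [LinearMap.comp_apply, lm_apply] at h2
  rw [h2]
  by_cases h : w0 = l0 ∧ x0 = x
  · simp [h]
  · simp [h]

omit hb in
omit b0 in
theorem appe_nil (w : Wd R B) (x : Var R) (r : R) : appe Bs w x r [] = 0 := by
  have : Finsupp.lapply ([] : Wd R B) ∘ₗ appe Bs w x = (0 : R →ₗ[k] R) := by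
    classical
    apply Bs.ext
    intro b'
    simp only [LinearMap.comp_apply, appe_basis, Finsupp.lapply_apply, LinearMap.zero_apply]
    rw [Finsupp.single_apply, if_neg]
    simp
  exact LinearMap.congr_fun this r

/-- the right coefficients are right linear -/
theorem rc_mul (F : Ext k R) (r : R) (a : B) (l0 : Wd R B) (x : Var R) :
    rcL Bs a l0 x (nf Bs b0 hb (F * ιR k R r)) = rcL Bs a l0 x (nf Bs b0 hb F) * r ∧
    nf Bs b0 hb (F * ιR k R r) [] = nf Bs b0 hb F [] * r := by
  classical
  have h0 : ∀ w : Wd R B, Nrm b0 w → ∀ s : R,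
      rcL Bs a l0 x (nf Bs b0 hb (ιR k R s * wd Bs w * ιR k R r)) =
        rcL Bs a l0 x (single w s) * r ∧
      nf Bs b0 hb (ιR k R s * wd Bs w * ιR k R r) [] = (single w s : VV R B) [] * r := by
    intro w hw s
    rcases List.eq_nil_or_concat w with rfl | ⟨w0, ⟨x0, b'⟩, rfl⟩
    · rw [rcL_single_ne Bs a l0 x [] (by simp), wd, mul_one, ← map_mul, nf_ιR,
        rcL_single_ne Bs a l0 x [] (by simp)]
      simp
    · simp only [List.concat_eq_append] at hw ⊢
      have h1 : ιR k R s * wd Bs (w0 ++ [(x0, b')]) * ιR k R r =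
          ιR k R s * (wd Bs w0 * ιX k R x0 * ιR k R (Bs b' * r)) := by
        rw [wd_append, map_mul]
        simp [wd, mul_assoc]
      rw [h1, nf_ιR_mul, nf_wd_mul_ιR Bs b0 hb hw, rcL_smul_appe, rcL_single]
      constructor
      · by_cases h : w0 = l0 ∧ x0 = x
        · simp [h]
        · simp [h]
      · rw [Finsupp.smul_apply, appe_nil, Finsupp.single_apply, if_neg]
        · simp
        · simp
  have hexp : F = (nf Bs b0 hb F).sum (fun w s => ιR k R s * wd Bs w) := by
    conv_lhs => rw [← sg_nf Bs b0 hb F, ← Finsupp.sum_single (nf Bs b0 hb F)]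
    simp only [Finsupp.sum, map_sum, sg_single]
  have hexp2 : F * ιR k R r = (nf Bs b0 hb F).sum (fun w s => ιR k R s * wd Bs w * ιR k R r) := by
    conv_lhs => rw [hexp]
    rw [Finsupp.sum_mul]
  have hexp3 : nf Bs b0 hb F = (nf Bs b0 hb F).sum (fun w s => single w s) :=
    (Finsupp.sum_single _).symm
  rw [hexp2]
  constructor
  · conv_rhs => rw [hexp3]
    simp only [Finsupp.sum, map_sum, Finset.sum_mul]
    refine Finset.sum_congr rfl fun w hw => (h0 w ?_ _).1
    exact nrm_of_nf_ne_zero Bs b0 hb (Finsupp.mem_support_iff.1 hw)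
  · conv_rhs => rw [hexp3]
    simp only [Finsupp.sum, map_sum, Finsupp.finsetSum_apply, Finset.sum_mul]
    refine Finset.sum_congr rfl fun w hw => (h0 w ?_ _).2
    exact nrm_of_nf_ne_zero Bs b0 hb (Finsupp.mem_support_iff.1 hw)

omit hb in
omit b0 in
theorem eq_zero_of_rc {v : VV R B} (h0 : v [] = 0) (h : ∀ a l0 x, rcL Bs a l0 x v = 0) : v = 0 := by
  ext w
  rcases List.eq_nil_or_concat w with rfl | ⟨w0, ⟨x0, b'⟩, rfl⟩
  · exact h0
  · simp only [List.concat_eq_append]
    apply Bs.ext_elem
    intro a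
    rw [← repr_rcL, h]
    simp

end

end Pool.Agent.RDO
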